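import Pool.Agent.Work.MP_b51559_nt.BG.E.Sieve

set_option autoImplicit false

/-!
# Block BG, part E (density of the differences of consecutive primes), file 2

Choice of the residue class which makes the two primes of the tuple consecutive, the greedy argument
and the count of the numbers prime to a primorial.
-/

namespace MPb51559.BG

open Finset Filter Topology MeasureTheory
open scoped Classical

/-- `d` is a difference of consecutive primes in `(x, 2 x)` which are `a` modulo `q` -/
def Dif (q a : ℕ) (x : ℝ) (d : ℕ) : Prop := ∃ p p' : ℕ, p.Prime ∧ p'.Prime ∧ x < p ∧ p < p' ∧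
  (p' : ℝ) < 2 * x ∧ (∀ r : ℕ, p < r → r < p' → ¬ r.Prime) ∧ p ≡ a [MOD q] ∧ p' = p + d

/-- A squarefree number divides an integer if all its prime factors do. -/
theorem E_sqf (q : ℕ) (hq : Squarefree q) (u v : ℕ) (h : ∀ p : ℕ, p.Prime → p ∣ q → u ≡ v [MOD p]) :
    u ≡ v [MOD q] := by
  have h1 : ∏ p ∈ q.primeFactors, p = q := Nat.prod_primeFactors_of_squarefree hq
  rw [← h1]
  have h2 : ∀ S : Finset ℕ, (∀ p ∈ S, p.Prime ∧ u ≡ v [MOD p]) → u ≡ v [MOD ∏ p ∈ S, p] := by
    intro S
    induction S using Finset.induction_on with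
    | empty => intro _; simpa using Nat.modEq_one
    | insert b S hb ih =>
      intro hS
      rw [Finset.prod_insert hb]
      have hbp := hS b (Finset.mem_insert_self b S)
      have hco : b.Coprime (∏ p ∈ S, p) := by
        refine Nat.Coprime.prod_right fun p hp => ?_
        refine (Nat.coprime_primes hbp.1 (hS p (Finset.mem_insert_of_mem hp)).1).2 ?_
        rintro rfl
        exact hb hp
      exact (Nat.modEq_and_modEq_iff_modEq_mul hco).1
        ⟨hbp.2, ih fun p hp => hS p (Finset.mem_insert_of_mem hp)⟩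
  exact h2 _ fun p hp => ⟨Nat.prime_of_mem_primeFactors hp,
    h p (Nat.prime_of_mem_primeFactors hp) (Nat.dvd_of_mem_primeFactors hp)⟩

/-- The residue class: prime to the primorial along the tuple, composite elsewhere. -/
theorem E_V0 (k : ℕ) (h : Fin k → ℕ) (hA : Adm h) (H : ℕ) (hH : ∀ i, h i ≤ H) (q a : ℕ)
    (hq : Squarefree q) (hqa : a.Coprime q) (hqh : ∀ i, q ∣ h i) :
    ∃ D1 : ℕ, ∀ D0 ≥ D1, ∃ v0 : ℕ, (∀ i, (v0 + h i).Coprime (primorial D0)) ∧
      (v0 ≡ a [MOD q] ∧ q ∣ primorial D0) ∧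
      ∀ t ≤ H, (∀ i, h i ≠ t) → ∃ q : ℕ, q.Prime ∧ q ≤ D0 ∧ q ∣ v0 + t := by
  have hq0 : 0 < q := Nat.pos_of_ne_zero hq.ne_zero
  set Q : ℕ → ℕ := fun t => Nat.nth Nat.Prime (H + q + 1 + t) with hQ
  have hQp : ∀ t, (Q t).Prime := fun t => Nat.prime_nth_prime _
  have hQH : ∀ t, H + q < Q t := by
    intro t
    have h1 := Nat.add_two_le_nth_prime (H + q + 1 + t)
    show H + q < Nat.nth Nat.Prime (H + q + 1 + t)
    omega
  have hmono : StrictMono (Nat.nth Nat.Prime) := Nat.nth_strictMono Nat.infinite_setOfPred_prime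
  have hQinj : ∀ s t, Q s = Q t → s = t := by
    intro s t hst
    have h1 := hmono.injective hst
    omega
  refine ⟨Nat.nth Nat.Prime (2 * H + q + 1), fun D0 hD0 => ?_⟩
  have hQD : ∀ t ≤ H, Q t ≤ D0 := by
    intro t ht
    refine le_trans ?_ hD0
    exact hmono.monotone (by omega)
  have hqD : q ≤ D0 := by
    have h1 := Nat.add_two_le_nth_prime (2 * H + q + 1)
    omega
  -- the residues
  have hc : ∀ p : ℕ, ∃ v : ℕ, p.Prime → (∀ i, ¬ p ∣ v + h i) ∧ (p ∣ q → v = a) ∧
      ∀ t ≤ H, (∀ i, h i ≠ t) → p = Q t → p ∣ v + t := by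
    intro p
    by_cases hp : p.Prime
    · by_cases hex : ∃ t, t ≤ H ∧ (∀ i, h i ≠ t) ∧ p = Q t
      · obtain ⟨t, ht, hne, hpt⟩ := hex
        have hpH' : H + q < p := by rw [hpt]; exact hQH t
        have hpH : H < p := by omega
        refine ⟨p - t, fun _ => ⟨fun i hd => ?_, fun hpq => ?_, fun s hs hsne hps => ?_⟩⟩
        · have h1 := hH i
          have h2 := hne i
          obtain ⟨c, hc⟩ := hd
          have h3 : 0 < p - t + h i := by omega
          have h4 : p - t + h i < p * 2 := by omega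
          have h5 : c ≠ 0 := by
            rintro rfl
            omega
          have h6 : c < 2 := by
            by_contra hge
            have : p * 2 ≤ p * c := Nat.mul_le_mul_left p (not_lt.1 hge)
            omega
          have h7 : c = 1 := by omega
          rw [h7, mul_one] at hc
          omega
        · have := Nat.le_of_dvd hq0 hpq
          omega
        · have hst : s = t := hQinj s t (by rw [← hps, ← hpt])
          subst hst
          have : p - s + s = p := by omega
          rw [this]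
      · by_cases hpq : p ∣ q
        · refine ⟨a, fun _ => ⟨fun i hd => ?_, fun _ => rfl,
            fun t ht hne hpt => absurd ⟨t, ht, hne, hpt⟩ hex⟩⟩
          have h1 : p ∣ a := (Nat.dvd_add_left (hpq.trans (hqh i))).1 hd
          have h2 := Nat.dvd_gcd h1 hpq
          rw [hqa] at h2
          exact hp.one_lt.ne' (Nat.dvd_one.1 h2)
        · obtain ⟨v, hv⟩ := hA.2 p hp
          exact ⟨v, fun _ => ⟨hv, fun h1 => absurd h1 hpq,
            fun t ht hne hpt => absurd ⟨t, ht, hne, hpt⟩ hex⟩⟩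
    · exact ⟨0, fun h1 => absurd h1 hp⟩
  choose c ha using hc
  obtain ⟨v, hv⟩ := Nat.chineseRemainderOfFinset c (fun p => p)
    ((range (D0 + 1)).filter (fun p => p.Prime))
    (fun p hp => (Finset.mem_filter.1 hp).2.ne_zero)
    (by
      intro p hp q hq hpq
      exact (Nat.coprime_primes (Finset.mem_filter.1 hp).2 (Finset.mem_filter.1 hq).2).2 hpq)
  refine ⟨v, fun i => ?_, ⟨?_, ?_⟩, fun t ht hne => ?_⟩
  · rw [primorial]
    refine Nat.Coprime.prod_right fun p hp => ?_
    have hp' : p.Prime := (Finset.mem_filter.1 hp).2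
    refine Nat.Coprime.symm ((Nat.Prime.coprime_iff_not_dvd hp').2 fun hd => ?_)
    have h1 : v ≡ c p [MOD p] := hv p (by simpa using hp)
    exact (ha p hp').1 i (((h1.add_right (h i)).dvd_iff dvd_rfl).1 hd)
  · refine E_sqf q hq v a fun p hp hpq => ?_
    have hpD : p ≤ D0 := (Nat.le_of_dvd hq0 hpq).trans hqD
    have h1 : v ≡ c p [MOD p] :=
      hv p (Finset.mem_filter.2 ⟨Finset.mem_range.2 (Nat.lt_succ_of_le hpD), hp⟩)
    rw [(ha p hp).2.1 hpq] at h1
    exact h1
  · rw [← Nat.prod_primeFactors_of_squarefree hq, primorial]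
    refine Finset.prod_dvd_prod_of_subset _ _ _ fun p hp => ?_
    have hpD : p ≤ D0 := (Nat.le_of_dvd hq0 (Nat.dvd_of_mem_primeFactors hp)).trans hqD
    exact Finset.mem_filter.2 ⟨Finset.mem_range.2 (Nat.lt_succ_of_le hpD),
      Nat.prime_of_mem_primeFactors hp⟩
  · refine ⟨Q t, hQp t, hQD t ht, ?_⟩
    have hmem : Q t ∈ (range (D0 + 1)).filter (fun p => p.Prime) :=
      Finset.mem_filter.2 ⟨Finset.mem_range.2 (Nat.lt_succ_of_le (hQD t ht)), hQp t⟩
    have h1 : v ≡ c (Q t) [MOD Q t] := hv (Q t) hmem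
    exact ((h1.add_right t).dvd_iff dvd_rfl).2 ((ha (Q t) (hQp t)).2.2 t ht hne rfl)

/-- Consecutive primes in the tuple. -/
theorem E_consec (k : ℕ) (h : Fin k → ℕ) (hA : Adm h) (hT : TwoV h) (q a : ℕ)
    (hq : Squarefree q) (hqa : a.Coprime q) (hqh : ∀ i, q ∣ h i) :
    ∃ x0 : ℝ, ∀ x ≥ x0, ∃ i j : Fin k, h i < h j ∧ Dif q a x (h j - h i) := by
  obtain ⟨H, hH⟩ : ∃ H : ℕ, ∀ i, h i ≤ H :=
    ⟨∑ i, h i, fun i => Finset.single_le_sum (f := h) (fun j _ => Nat.zero_le _) (mem_univ i)⟩
  obtain ⟨D1, hD1⟩ := hT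
  obtain ⟨D2, hD2⟩ := E_V0 k h hA H hH q a hq hqa hqh
  set D0 := max D1 D2 with hD0
  obtain ⟨x0, hx0⟩ := hD1 D0 (le_max_left _ _)
  obtain ⟨v0, hv1, ⟨hva, hqW⟩, hv2⟩ := hD2 D0 (le_max_right _ _)
  refine ⟨max x0 D0, fun x hx => ?_⟩
  obtain ⟨n, hn, hxn, hn2, i1, i2, hi12, hp1, hp2⟩ := hx0 x ((le_max_left _ _).trans hx) v0 hv1
  have hDn : D0 < n := by
    have h1 : (D0 : ℝ) ≤ x := (le_max_right _ _).trans hx
    exact_mod_cast lt_of_le_of_lt h1 hxn
  -- the other numbers are composite
  have hcomp : ∀ t ≤ H, (∀ i, h i ≠ t) → ¬ (n + t).Prime := by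
    intro t ht hne hprime
    obtain ⟨u, hu, huD, hud⟩ := hv2 t ht hne
    have huW : u ∣ primorial D0 := by
      rw [primorial]
      exact Finset.dvd_prod_of_mem (fun p => p)
        (Finset.mem_filter.2 ⟨Finset.mem_range.2 (Nat.lt_succ_of_le huD), hu⟩)
    have h1 : n + t ≡ v0 + t [MOD primorial D0] := hn.add_right t
    have h2 : u ∣ n + t := (h1.dvd_iff huW).2 hud
    have h3 := (Nat.prime_dvd_prime_iff_eq hu hprime).1 h2
    omega
  -- the smallest prime of the tuple
  set A : Finset (Fin k) := univ.filter fun i => (n + h i).Prime with hAdef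
  have hi1A : i1 ∈ A := Finset.mem_filter.2 ⟨mem_univ _, hp1⟩
  have hi2A : i2 ∈ A := Finset.mem_filter.2 ⟨mem_univ _, hp2⟩
  obtain ⟨i, hiA, himin⟩ := Finset.exists_min_image A h ⟨i1, hi1A⟩
  obtain ⟨j0, hj0A, hj0⟩ : ∃ j ∈ A, h i < h j := by
    by_contra hno
    have hall : ∀ j ∈ A, h j = h i := fun j hj => by
      by_contra hne
      exact hno ⟨j, hj, lt_of_le_of_ne (himin j hj) (Ne.symm hne)⟩
    exact hi12 (hA.1 ((hall i1 hi1A).trans (hall i2 hi2A).symm))
  obtain ⟨j, hjB, hjmin⟩ := Finset.exists_min_image (A.filter fun j => h i < h j) h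
    ⟨j0, Finset.mem_filter.2 ⟨hj0A, hj0⟩⟩
  obtain ⟨hjA, hij⟩ := Finset.mem_filter.1 hjB
  refine ⟨i, j, hij, n + h i, n + h j, (Finset.mem_filter.1 hiA).2, (Finset.mem_filter.1 hjA).2,
    ?_, by omega, ?_, ?_, ?_, by omega⟩
  · have : (n : ℝ) ≤ ((n + h i : ℕ) : ℝ) := by exact_mod_cast Nat.le_add_right _ _
    linarith
  · have := hn2 j
    push_cast
    exact this
  · intro r hr1 hr2 hr
    obtain ⟨t, rfl⟩ : ∃ t, r = n + t := ⟨r - n, by omega⟩
    have htH : t ≤ H := by
      have := hH j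
      omega
    by_cases hex : ∃ l, h l = t
    · obtain ⟨l, rfl⟩ := hex
      have hlA : l ∈ A := Finset.mem_filter.2 ⟨mem_univ _, hr⟩
      have hl2 := hjmin l (Finset.mem_filter.2 ⟨hlA, by omega⟩)
      omega
    · exact hcomp t htH (fun l hl => hex ⟨l, hl⟩) hr
  · have h1 : n ≡ a [MOD q] := (hn.of_dvd hqW).trans hva
    have h2 : h i ≡ 0 [MOD q] := Nat.modEq_zero_iff_dvd.2 (hqh i)
    simpa using h1.add h2

/-- Multiples by `s` of numbers prime to the primorial of `k` form admissible tuples. -/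
theorem E_adm (k : ℕ) (b : Fin k → ℕ) (hinj : Function.Injective b)
    (hco : ∀ i, (b i).Coprime (primorial k)) (s : ℕ) (hs : 0 < s) : Adm fun i => s * b i := by
  refine ⟨fun i j hij => hinj (Nat.eq_of_mul_eq_mul_left hs hij), fun p hp => ?_⟩
  set h : Fin k → ℕ := fun i => s * b i with hh
  by_cases hpk : p ≤ k
  · by_cases hps : p ∣ s
    · refine ⟨1, fun i hd => ?_⟩
      have h1 : p ∣ 1 := (Nat.dvd_add_left (hps.mul_right (b i))).1 hd
      exact hp.one_lt.ne' (Nat.dvd_one.1 h1)
    · refine ⟨0, fun i hd => ?_⟩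
      rw [zero_add] at hd
      have hpb : p ∣ b i := ((Nat.Prime.dvd_mul hp).1 hd).resolve_left hps
      have hpW : p ∣ primorial k := by
        rw [primorial]
        exact Finset.dvd_prod_of_mem (fun p => p)
          (Finset.mem_filter.2 ⟨Finset.mem_range.2 (Nat.lt_succ_of_le hpk), hp⟩)
      have h1 := Nat.dvd_gcd hpb hpW
      rw [hco i] at h1
      exact hp.one_lt.ne' (Nat.dvd_one.1 h1)
  · by_contra hno
    have hall : ∀ v : ℕ, ∃ i, p ∣ v + h i := by
      intro v
      by_contra hc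
      exact hno ⟨v, fun i hd => hc ⟨i, hd⟩⟩
    choose f hf using hall
    have hinjf : Set.InjOn f (range p : Set ℕ) := by
      intro v hv u hu huv
      have h1 := hf v
      have h2 := hf u
      rw [← huv] at h2
      have hv' : v < p := Finset.mem_range.1 (Finset.mem_coe.1 hv)
      have hu' : u < p := Finset.mem_range.1 (Finset.mem_coe.1 hu)
      have h3 : v + h (f v) ≡ u + h (f v) [MOD p] :=
        ((Nat.modEq_zero_iff_dvd.2 h1).trans (Nat.modEq_zero_iff_dvd.2 h2).symm)
      have h4 : v ≡ u [MOD p] := Nat.ModEq.add_right_cancel' _ h3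
      have h5 := h4
      rw [Nat.ModEq, Nat.mod_eq_of_lt hv', Nat.mod_eq_of_lt hu'] at h5
      exact h5
    have hcard := Finset.card_le_card_of_injOn (s := range p) (t := (univ : Finset (Fin k))) f
      (fun v _ => mem_univ _) hinjf
    rw [Finset.card_range, Finset.card_univ, Fintype.card_fin] at hcard
    exact hpk hcard

/-- Uniformity over all tuples of bounded size. -/
theorem E_unif (k N : ℕ) (hT : ∀ h : Fin k → ℕ, Adm h → TwoV h) (s q a : ℕ) (hs : 0 < s)
    (hq : Squarefree q) (hqs : q ∣ s) (hqa : a.Coprime q) :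
    ∃ x0 : ℝ, ∀ x ≥ x0, ∀ b : Fin k → ℕ, Function.Injective b →
      (∀ i, b i ≤ N ∧ (b i).Coprime (primorial k)) → ∃ i j : Fin k, b i < b j ∧
        Dif q a x (s * (b j - b i)) := by
  have hev : ∀ᶠ x : ℝ in atTop, ∀ b ∈ Fintype.piFinset (fun _ : Fin k => range (N + 1)),
      Function.Injective b → (∀ i, (b i).Coprime (primorial k)) →
      ∃ i j : Fin k, b i < b j ∧ Dif q a x (s * (b j - b i)) := by
    rw [Filter.eventually_all_finset]
    intro b _
    by_cases h1 : Function.Injective b ∧ ∀ i, (b i).Coprime (primorial k)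
    · have hA := E_adm k b h1.1 h1.2 s hs
      obtain ⟨x0, hx0⟩ := E_consec k (fun i => s * b i) hA (hT _ hA) q a hq hqa
        (fun i => hqs.mul_right _)
      filter_upwards [eventually_ge_atTop x0] with x hx _ _
      obtain ⟨i, j, hij, hd⟩ := hx0 x hx
      refine ⟨i, j, lt_of_mul_lt_mul_left hij (Nat.zero_le s), ?_⟩
      rw [Nat.mul_sub]
      exact hd
    · exact Filter.Eventually.of_forall fun x h2 h3 => absurd ⟨h2, h3⟩ h1
  obtain ⟨x0, hx0⟩ := eventually_atTop.1 hev
  refine ⟨x0, fun x hx b hinj hh => ?_⟩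
  refine hx0 x hx b ?_ hinj (fun i => (hh i).2)
  exact Fintype.mem_piFinset.2 fun i => Finset.mem_range.2 (Nat.lt_succ_of_le (hh i).1)

/-- The greedy argument. -/
theorem E_greedy (k : ℕ) (B D : ℕ → Prop) [DecidablePred B] [DecidablePred D] (N : ℕ)
    (hB : ∀ h : Fin k → ℕ, Function.Injective h → (∀ i, h i ≤ N ∧ B (h i)) →
      ∃ i j : Fin k, h i < h j ∧ D (h j - h i)) :
    ((Icc 1 N).filter B).card ≤ (k - 1) * (1 + ((Icc 1 N).filter D).card) := by
  -- the greedy set
  have hgr : ∀ M : ℕ, ∃ I : Finset ℕ, I ⊆ (Icc 1 M).filter B ∧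
      (∀ a ∈ I, ∀ b ∈ I, a < b → ¬ D (b - a)) ∧
      ∀ b ∈ (Icc 1 M).filter B, b ∈ I ∨ ∃ a ∈ I, a < b ∧ D (b - a) := by
    intro M
    induction M with
    | zero => exact ⟨∅, by simp, by simp, by simp⟩
    | succ M ih =>
      obtain ⟨I, hI1, hI2, hI3⟩ := ih
      have hlt : ∀ a ∈ I, a < M + 1 := fun a ha => by
        have := (Finset.mem_Icc.1 (Finset.mem_filter.1 (hI1 ha)).1).2
        omega
      by_cases hnew : B (M + 1) ∧ ∀ a ∈ I, ¬ D (M + 1 - a)
      · refine ⟨insert (M + 1) I, ?_, ?_, ?_⟩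
        · intro a ha
          rcases Finset.mem_insert.1 ha with rfl | ha
          · exact Finset.mem_filter.2 ⟨Finset.mem_Icc.2 ⟨by omega, le_rfl⟩, hnew.1⟩
          · obtain ⟨h1, h2⟩ := Finset.mem_filter.1 (hI1 ha)
            obtain ⟨h3, h4⟩ := Finset.mem_Icc.1 h1
            exact Finset.mem_filter.2 ⟨Finset.mem_Icc.2 ⟨h3, by omega⟩, h2⟩
        · intro a ha b hb hab
          rcases Finset.mem_insert.1 ha with rfl | ha
          · rcases Finset.mem_insert.1 hb with rfl | hb
            · omega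
            · have := hlt b hb
              omega
          · rcases Finset.mem_insert.1 hb with rfl | hb
            · exact hnew.2 a ha
            · exact hI2 a ha b hb hab
        · intro b hb
          obtain ⟨h1, h2⟩ := Finset.mem_filter.1 hb
          obtain ⟨h3, h4⟩ := Finset.mem_Icc.1 h1
          by_cases hbM : b = M + 1
          · exact Or.inl (Finset.mem_insert.2 (Or.inl hbM))
          · rcases hI3 b (Finset.mem_filter.2 ⟨Finset.mem_Icc.2 ⟨h3, by omega⟩, h2⟩) with h5 | h5
            · exact Or.inl (Finset.mem_insert_of_mem h5)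
            · obtain ⟨a, ha, hab, hD⟩ := h5
              exact Or.inr ⟨a, Finset.mem_insert_of_mem ha, hab, hD⟩
      · refine ⟨I, ?_, hI2, ?_⟩
        · intro a ha
          obtain ⟨h1, h2⟩ := Finset.mem_filter.1 (hI1 ha)
          obtain ⟨h3, h4⟩ := Finset.mem_Icc.1 h1
          exact Finset.mem_filter.2 ⟨Finset.mem_Icc.2 ⟨h3, by omega⟩, h2⟩
        · intro b hb
          obtain ⟨h1, h2⟩ := Finset.mem_filter.1 hb
          obtain ⟨h3, h4⟩ := Finset.mem_Icc.1 h1
          by_cases hbM : b = M + 1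
          · subst hbM
            right
            by_contra hno
            exact hnew ⟨h2, fun a ha hD => hno ⟨a, ha, hlt a ha, hD⟩⟩
          · exact hI3 b (Finset.mem_filter.2 ⟨Finset.mem_Icc.2 ⟨h3, by omega⟩, h2⟩)
  obtain ⟨I, hI1, hI2, hI3⟩ := hgr N
  -- at most k - 1 elements
  have hIk : I.card ≤ k - 1 := by
    by_contra hgt
    have hge : k ≤ I.card := by omega
    obtain ⟨I', hI', hcard⟩ := Finset.exists_subset_card_eq hge
    set e := I'.orderEmbOfFin hcard with he
    have hmem : ∀ i, e i ∈ I := fun i => hI' (Finset.orderEmbOfFin_mem I' hcard i)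
    obtain ⟨i, j, hij, hD⟩ := hB (fun i => e i) e.injective (fun i => by
      obtain ⟨h1, h2⟩ := Finset.mem_filter.1 (hI1 (hmem i))
      exact ⟨(Finset.mem_Icc.1 h1).2, h2⟩)
    exact hI2 (e i) (hmem i) (e j) (hmem j) hij hD
  -- the cover
  have hcover : (Icc 1 N).filter B ⊆ I ∪ I.biUnion fun a =>
      ((Icc 1 N).filter D).image fun d => a + d := by
    intro b hb
    rcases hI3 b hb with h1 | ⟨a, ha, hab, hD⟩
    · exact Finset.mem_union_left _ h1
    · refine Finset.mem_union_right _ (Finset.mem_biUnion.2 ⟨a, ha, ?_⟩)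
      refine Finset.mem_image.2 ⟨b - a, Finset.mem_filter.2 ⟨Finset.mem_Icc.2 ?_, hD⟩, by omega⟩
      have := (Finset.mem_Icc.1 (Finset.mem_filter.1 hb).1).2
      omega
  calc ((Icc 1 N).filter B).card ≤ (I ∪ I.biUnion fun a =>
        ((Icc 1 N).filter D).image fun d => a + d).card := Finset.card_le_card hcover
    _ ≤ I.card + (I.biUnion fun a => ((Icc 1 N).filter D).image fun d => a + d).card :=
        Finset.card_union_le _ _
    _ ≤ I.card + I.card * ((Icc 1 N).filter D).card := by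
        refine Nat.add_le_add_left (Finset.card_biUnion_le_card_mul _ _ _ fun a _ => ?_) _
        exact Finset.card_image_le
    _ = I.card * (1 + ((Icc 1 N).filter D).card) := by ring
    _ ≤ (k - 1) * (1 + ((Icc 1 N).filter D).card) := Nat.mul_le_mul_right _ hIk

/-- The count of the numbers prime to `W`. -/
theorem E_count (W N : ℕ) (hW : 0 < W) :
    N / W * W.totient ≤ ((Icc 1 N).filter fun b => b.Coprime W).card := by
  have h1 : ∀ m : ℕ, m * W.totient = ((Ioc 0 (m * W)).filter fun b => b.Coprime W).card := by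
    intro m
    induction m with
    | zero => simp
    | succ m ih =>
      have hsplit : (Ioc 0 ((m + 1) * W)) = Ioc 0 (m * W) ∪ Ioc (m * W) (m * W + W) := by
        ext b
        simp only [Finset.mem_union, Finset.mem_Ioc]
        have : (m + 1) * W = m * W + W := by ring
        omega
      have hdisj : Disjoint ((Ioc 0 (m * W)).filter fun b => b.Coprime W)
          ((Ioc (m * W) (m * W + W)).filter fun b => b.Coprime W) := by
        refine Finset.disjoint_filter_filter ?_
        rw [Finset.disjoint_left]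
        intro b hb hb'
        rw [Finset.mem_Ioc] at hb hb'
        omega
      rw [hsplit, Finset.filter_union, Finset.card_union_of_disjoint hdisj, ← ih]
      have h2 : ((Ioc (m * W) (m * W + W)).filter fun b => b.Coprime W).card = W.totient := by
        have h3 := Nat.filter_coprime_Ico_eq_totient W (m * W + 1)
        rw [← h3]
        congr 1
        ext b
        simp only [Finset.mem_filter, Finset.mem_Ioc, Finset.mem_Ico, Nat.coprime_comm]
        constructor
        · rintro ⟨h4, h5⟩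
          exact ⟨by omega, h5⟩
        · rintro ⟨h4, h5⟩
          exact ⟨by omega, h5⟩
      rw [h2]
      ring
  rw [h1]
  refine Finset.card_le_card fun b hb => ?_
  obtain ⟨h2, h3⟩ := Finset.mem_filter.1 hb
  rw [Finset.mem_Ioc] at h2
  have := Nat.div_mul_le_self N W
  exact Finset.mem_filter.2 ⟨Finset.mem_Icc.2 ⟨by omega, by omega⟩, h3⟩

/-- The lower bound for the number of differences, for one `k`. -/
theorem E_bound (k : ℕ) (hT : ∀ h : Fin k → ℕ, Adm h → TwoV h) (s q a : ℕ) (hs : 0 < s)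
    (hq : Squarefree q) (hqs : q ∣ s) (hqa : a.Coprime q) (N : ℕ) :
    ∃ x0 : ℝ, ∀ x ≥ x0, N / primorial k * (primorial k).totient ≤
      (k - 1) * (1 + ((Icc 1 N).filter fun m => Dif q a x (s * m)).card) := by
  obtain ⟨x0, hx0⟩ := E_unif k N hT s q a hs hq hqs hqa
  refine ⟨x0, fun x hx => ?_⟩
  refine (E_count (primorial k) N (primorial_pos k)).trans ?_
  exact E_greedy k (fun b => b.Coprime (primorial k)) (fun m => Dif q a x (s * m)) N
    (fun b hinj hh => hx0 x hx b hinj hh)

end MPb51559.BG
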