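import Pool.Agent.Work.MP_b51559_nt.BG.Fin
import Pool.Agent.Work.MP_b51559_nt.BG.E.Dens

set_option autoImplicit false

/-!
# Block BG, part E (density of the differences of consecutive primes), file 3

The sieve theorem of part C in every residue class, and the lower bound for the number of differences.
-/

namespace MPb51559.BG

open Finset Filter Topology MeasureTheory
open scoped Classical

/-- The sieve theorem (part C, helper99) with the residue class kept. -/
theorem E_TwoV (k : ℕ) (hk : 2 ≤ k) (hN : NUMk k) (h : Fin k → ℕ) (hAdm : Adm h) : TwoV h := by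
  obtain ⟨P, F, hOk, hF, hCrit⟩ := hN
  obtain ⟨w, hw⟩ := prf_Wex
  have hk0 : 0 < k := by omega
  have h1 : S1Concl w h F := all_S1A w hw k h hk0 hAdm.1 P.T F hOk.hT1 hOk.hT2 hF
  have h2 : UppConcl w h F := all_KB w hw k h hk0 hAdm.1 P.T F hOk.hT1 hOk.hT2 hF
  have h3 : GramConcl w h F :=
    all_GRM all_BVE A.bg_PNTW w hw k h hk0 hAdm.1 P.T F hOk.hT1 hOk.hT2 hF
  have h4 : YmConcl P.T F := by
    intro δ hδ0 hδ1
    obtain ⟨C, _, hC⟩ := all_YM k P.T F hOk.hT1 hOk.hT2 hF δ hδ0 hδ1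
    obtain ⟨D1, hD1⟩ := hC 1 one_pos
    refine ⟨D1, fun D0 hD0 => ?_⟩
    obtain ⟨x0, hx0⟩ := hD1 D0 hD0
    exact ⟨x0, fun x hx m r => (hx0 x hx m r).2.1⟩
  have h5 : S2Concl w h P F := prf_S2A prf_INV prf_RS prf_DEC prf_LIN prf_AL prf_ALD
    (prf_GII prf_MG) (prf_JD prf_MG) w hw k h hk0 P F hOk hF h3 h2 h4
  exact E_prf_MAIN w hw k h hk0 P F hCrit h1 h5

/-- For every admissible `k`-tuple two of its members are consecutive primes, in a given reduced
residue class to a squarefree modulus which divides the tuple. -/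
theorem E_tuple (k : ℕ) (hk : 2 ≤ k) (hN : NUMk k) (h : Fin k → ℕ) (hAdm : Adm h) (q a : ℕ)
    (hq : Squarefree q) (hqa : a.Coprime q) (hqh : ∀ i, q ∣ h i) :
    ∃ x0 : ℝ, ∀ x ≥ x0, ∃ i j : Fin k, h i < h j ∧ Dif q a x (h j - h i) :=
  E_consec k h hAdm (E_TwoV k hk hN h hAdm) q a hq hqa hqh

end MPb51559.BG
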