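import Pool.Agent.Work.MP_b51559_nt.BG.E.Dens

set_option autoImplicit false

/-!
# Block BG, part E (density of the differences of consecutive primes): the interface with part F
-/

namespace MPb51559.BG

open Finset Filter Topology MeasureTheory
open scoped Classical

/-- infinitely often a difference -/
def DifI (q a d : ℕ) : Prop := ∀ y : ℝ, ∃ p p' : ℕ, p.Prime ∧ p'.Prime ∧ y < p ∧ p < p' ∧
  (∀ r : ℕ, p < r → r < p' → ¬ r.Prime) ∧ p ≡ a [MOD q] ∧ p' = p + d

/-- Every large set of numbers prime to the primorial has a difference in the set. -/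
theorem E_DefD (k : ℕ) (hT : ∀ h : Fin k → ℕ, Adm h → TwoV h) (s q a : ℕ) (hs : 0 < s)
    (hq : Squarefree q) (hqs : q ∣ s) (hqa : a.Coprime q) (H : ℕ) :
    ∃ x0 : ℝ, ∀ x ≥ x0, ∀ K : Finset ℕ, K.card = k →
      (∀ b ∈ K, 1 ≤ b ∧ b ≤ H ∧ b.Coprime (primorial k)) →
      ∃ u ∈ K, ∃ v ∈ K, u < v ∧ Dif q a x (s * (v - u)) ∧ DifI q a (s * (v - u)) := by
  obtain ⟨x0, hx0⟩ := E_unif k H hT s q a hs hq hqs hqa
  have hev : ∀ᶠ x : ℝ in atTop, ∀ m ∈ Icc 1 H, Dif q a x (s * m) → DifI q a (s * m) := by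
    rw [Filter.eventually_all_finset]
    intro m _
    by_cases hd : DifI q a (s * m)
    · exact Filter.Eventually.of_forall fun x _ => hd
    · obtain ⟨y, hy⟩ := not_forall.1 hd
      filter_upwards [eventually_ge_atTop y] with x hx hdif
      obtain ⟨p, p', h1, h2, h3, h4, _, h6, h7, h8⟩ := hdif
      exact absurd ⟨p, p', h1, h2, lt_of_le_of_lt hx h3, h4, h6, h7, h8⟩ hy
  obtain ⟨x1, hx1⟩ := eventually_atTop.1 hev
  refine ⟨max x0 x1, fun x hx K hK hKb => ?_⟩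
  set e := K.orderEmbOfFin hK with he
  have hmem : ∀ i, e i ∈ K := fun i => Finset.orderEmbOfFin_mem K hK i
  obtain ⟨i, j, hij, hD⟩ := hx0 x ((le_max_left _ _).trans hx) (fun i => e i) e.injective
    (fun i => ⟨(hKb _ (hmem i)).2.1, (hKb _ (hmem i)).2.2⟩)
  refine ⟨e i, hmem i, e j, hmem j, hij, hD, ?_⟩
  refine hx1 x ((le_max_right _ _).trans hx) (e j - e i) (Finset.mem_Icc.2 ⟨?_, ?_⟩) hD
  · exact Nat.sub_pos_of_lt hij
  · exact (Nat.sub_le _ _).trans (hKb _ (hmem j)).2.1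

end MPb51559.BG
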