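import Pool.Agent.Work.MP_b51559_nt.BG.E.Dd

set_option autoImplicit false

/-!
# Block BG, part E: primes in different groups (second moment method), the exact inequality and the
consequences

`g : Fin k → ℕ` is the number of the group of an index.
-/

namespace MPb51559.BG

open Finset Filter Topology MeasureTheory
open scoped Classical

/-- two primes in different groups, in every class `v0` which is allowed -/
def GrpV {k : ℕ} (h g : Fin k → ℕ) : Prop := ∃ D1 : ℕ, ∀ D0 ≥ D1, ∃ x0 : ℝ, ∀ x ≥ x0, ∀ v0 : ℕ,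
  (∀ i, (v0 + h i).Coprime (primorial D0)) →
  ∃ n : ℕ, n ≡ v0 [MOD primorial D0] ∧ x < n ∧ (∀ i, (n + h i : ℝ) < 2 * x) ∧
    ∃ i j : Fin k, g i ≠ g j ∧ (n + h i).Prime ∧ (n + h j).Prime

/-- the pair sum: `n + h m` prime with its weight, `n + h j` prime -/
noncomputable def S3 (w : ℝ → ℝ) {S : Finset ℕ} {k : ℕ} (h : Fin k → ℕ) (D0 v0 : ℕ) (x : ℝ)
    (m j : Fin k) (l : Co S k → ℝ) : ℝ :=
  ∑ n ∈ (range (⌊2 * x⌋₊ + 1)).filter (fun n => n ≡ v0 [MOD primorial D0]),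
    tm w h x m n * ((if (n + h j).Prime then 1 else 0) * (Vn h l n * Vn h l n))

/-- the pairs of different indices in the same group -/
noncomputable def prs {k : ℕ} (g : Fin k → ℕ) : Finset (Fin k × Fin k) :=
  univ.filter fun z => z.1 ≠ z.2 ∧ g z.1 = g z.2

/-- The exact inequality. -/
theorem E_G1 (w : ℝ → ℝ) (hw : Wt w) (k : ℕ) (h g : Fin k → ℕ) (hk : 0 < k) :
    ∃ x0 : ℝ, ∀ x ≥ x0, ∀ (D0 v0 : ℕ) (S : Finset ℕ) (l : Co S k → ℝ) (ρ : ℝ),
    ρ ^ 2 * (Real.log (2 * x) * S1 w h D0 v0 x l l) + ∑ z ∈ prs g, S3 w h D0 v0 x z.1 z.2 l <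
      (2 * ρ - 1) * ∑ m, S2 w h D0 v0 x m l l →
    ∃ n : ℕ, n ≡ v0 [MOD primorial D0] ∧ x < n ∧ (∀ i, (n + h i : ℝ) < 2 * x) ∧
      ∃ i j : Fin k, g i ≠ g j ∧ (n + h i).Prime ∧ (n + h j).Prime := by
  refine ⟨8 * (∑ i, (h i : ℝ)) + 8, fun x hx D0 v0 S l ρ hS => ?_⟩
  have hH0 : ∀ i, (0 : ℝ) ≤ h i := fun i => Nat.cast_nonneg _
  have hHs : ∀ i, (h i : ℝ) ≤ ∑ j, (h j : ℝ) := fun i =>
    Finset.single_le_sum (f := fun j => (h j : ℝ)) (fun j _ => hH0 j) (mem_univ i)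
  have hsum0 : 0 ≤ ∑ j, (h j : ℝ) := sum_nonneg fun j _ => hH0 j
  have hx1 : 1 ≤ x := by linarith
  have hx0 : 0 < x := by linarith
  have hlog : 0 ≤ Real.log (2 * x) := Real.log_nonneg (by linarith)
  set X : ℕ → Fin k → ℝ := fun n j => if (n + h j).Prime then 1 else 0 with hX
  have hS2 : ∑ m, S2 w h D0 v0 x m l l =
      ∑ n ∈ (range (⌊2 * x⌋₊ + 1)).filter (fun n => n ≡ v0 [MOD primorial D0]),
        (∑ m, tm w h x m n) * (Vn h l n * Vn h l n) := by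
    simp only [S2, sum_mul]
    rw [sum_comm]
  have hS3 : ∑ z ∈ prs g, S3 w h D0 v0 x z.1 z.2 l =
      ∑ n ∈ (range (⌊2 * x⌋₊ + 1)).filter (fun n => n ≡ v0 [MOD primorial D0]),
        (∑ z ∈ prs g, tm w h x z.1 n * X n z.2) * (Vn h l n * Vn h l n) := by
    simp only [S3, sum_mul]
    rw [sum_comm]
    refine Finset.sum_congr rfl fun n _ => Finset.sum_congr rfl fun z _ => ?_
    rw [hX]
    ring
  rw [hS2, hS3, S1, mul_sum, mul_sum, mul_sum, ← sum_add_distrib] at hS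
  obtain ⟨n, hnmem, hn⟩ := exists_lt_of_sum_lt hS
  have hV : 0 ≤ Vn h l n * Vn h l n := mul_self_nonneg _
  have hlt : ρ ^ 2 * (Real.log (2 * x) * wp w h x n) + ∑ z ∈ prs g, tm w h x z.1 n * X n z.2 <
      (2 * ρ - 1) * ∑ m, tm w h x m n := by
    by_contra hc
    have h1 := mul_le_mul_of_nonneg_right (not_lt.1 hc) hV
    rw [add_mul] at h1
    have e1 : ρ ^ 2 * (Real.log (2 * x) * wp w h x n) * (Vn h l n * Vn h l n) =
      ρ ^ 2 * (Real.log (2 * x) * (wp w h x n * (Vn h l n * Vn h l n))) := by ring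
    have e2 : (2 * ρ - 1) * ∑ m, tm w h x m n * (Vn h l n * Vn h l n) =
      (2 * ρ - 1) * (∑ m, tm w h x m n) * (Vn h l n * Vn h l n) := by rw [← sum_mul]; ring
    rw [e1] at h1
    exact absurd hn (not_lt.2 (by linarith))
  have hbdd : BddAbove (Set.range fun m : Fin k => w (((n : ℝ) + h m) / x)) :=
    Set.Finite.bddAbove (Set.finite_range _)
  have hwp : ∀ m : Fin k, w (((n : ℝ) + h m) / x) ≤ wp w h x n := fun m => le_ciSup hbdd m
  have hwp0 : 0 ≤ wp w h x n := (hw.nonneg _).trans (hwp ⟨0, hk⟩)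
  -- what a nonzero term says
  have hterm : ∀ m : Fin k, tm w h x m n ≠ 0 → (n + h m).Prime ∧
      9 / 8 * x < (n : ℝ) + h m ∧ (n : ℝ) + h m < 15 / 8 * x := by
    intro m hm
    unfold tm at hm
    split_ifs at hm with hp
    · have h1 := hw.supp _ (right_ne_zero_of_mul hm)
      exact ⟨hp, (lt_div_iff₀ hx0).1 h1.1, (div_lt_iff₀ hx0).1 h1.2⟩
    · exact absurd rfl hm
  have hle : ∀ m : Fin k, tm w h x m n ≤ Real.log (2 * x) * wp w h x n := by
    intro m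
    by_cases hm : tm w h x m n = 0
    · rw [hm]
      exact mul_nonneg hlog hwp0
    · obtain ⟨hp, h1, h2⟩ := hterm m hm
      unfold tm
      rw [if_pos hp]
      refine mul_le_mul ?_ (hwp m) (hw.nonneg _) hlog
      exact Real.log_le_log (by linarith) (by linarith)
  have htm0 : ∀ m : Fin k, 0 ≤ tm w h x m n := by
    intro m
    unfold tm
    split_ifs with hp
    · refine mul_nonneg (Real.log_nonneg ?_) (hw.nonneg _)
      have : 1 ≤ n + h m := hp.pos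
      exact_mod_cast this
    · exact le_rfl
  have hX0 : ∀ j, 0 ≤ X n j := fun j => by
    simp only [hX]
    split_ifs <;> norm_num
  have hP0 : 0 ≤ ∑ z ∈ prs g, tm w h x z.1 n * X n z.2 :=
    sum_nonneg fun z _ => mul_nonneg (htm0 _) (hX0 _)
  -- the total
  set L : ℝ := Real.log (2 * x) * wp w h x n with hL
  have hL0 : 0 ≤ L := mul_nonneg hlog hwp0
  set T : ℝ := ∑ m, tm w h x m n with hT
  have hT0 : 0 ≤ T := sum_nonneg fun m _ => htm0 m
  by_cases hdiff : ∃ i j : Fin k, g i ≠ g j ∧ (n + h i).Prime ∧ (n + h j).Prime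
  · -- some term is not zero
    have hTpos : T ≠ 0 := by
      intro hT1
      rw [hT1, mul_zero] at hlt
      have : 0 ≤ ρ ^ 2 * L := mul_nonneg (sq_nonneg _) hL0
      linarith
    obtain ⟨i, _, hi⟩ := Finset.exists_ne_zero_of_sum_ne_zero hTpos
    obtain ⟨_, hi1, hi2⟩ := hterm i hi
    refine ⟨n, (Finset.mem_filter.1 hnmem).2, ?_, fun m => ?_, hdiff⟩
    · have := hHs i
      linarith
    · have h1 := hHs m
      have h2 := hH0 i
      linarith
  · exfalso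
    have hsame : ∀ i j : Fin k, (n + h i).Prime → (n + h j).Prime → g i = g j := by
      intro i j hi hj
      by_contra hne
      exact hdiff ⟨i, j, hne, hi, hj⟩
    set Y : ℝ := ∑ j, X n j with hY
    have hY0 : 0 ≤ Y := sum_nonneg fun j _ => hX0 j
    -- the pair sum is T (Y - 1)
    have hpair : ∑ z ∈ prs g, tm w h x z.1 n * X n z.2 = T * (Y - 1) := by
      have e1 : ∑ z ∈ prs g, tm w h x z.1 n * X n z.2 =
          ∑ m, ∑ j, if m ≠ j ∧ g m = g j then tm w h x m n * X n j else 0 := by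
        rw [prs, sum_filter, ← Finset.univ_product_univ, Finset.sum_product]
      rw [e1, hT, sum_mul]
      refine Finset.sum_congr rfl fun m _ => ?_
      by_cases hm : tm w h x m n = 0
      · simp [hm]
      · have hmp := (hterm m hm).1
        have e2 : Y - 1 = ∑ j, if m ≠ j ∧ g m = g j then X n j else 0 := by
          have e3 : ∀ j, X n j = (if m ≠ j ∧ g m = g j then X n j else 0) +
              (if j = m then 1 else 0) := by
            intro j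
            by_cases hjm : j = m
            · subst hjm
              simp [hX, hmp]
            · by_cases hj : (n + h j).Prime
              · have := hsame m j hmp hj
                rw [if_pos ⟨Ne.symm hjm, this⟩, if_neg hjm, add_zero]
              · have : X n j = 0 := by simp [hX, hj]
                rw [this]
                simp [hjm]
          rw [hY, Finset.sum_congr rfl fun j _ => e3 j, sum_add_distrib]
          simp
        rw [e2, mul_sum]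
        refine Finset.sum_congr rfl fun j _ => ?_
        split_ifs
        · rfl
        · rw [mul_zero]
    rw [hpair] at hlt
    -- T ≤ Y L
    have hTY : T ≤ Y * L := by
      rw [hT, hY, sum_mul]
      refine Finset.sum_le_sum fun m _ => ?_
      by_cases hm : tm w h x m n = 0
      · rw [hm]
        exact mul_nonneg (hX0 m) hL0
      · have hmp := (hterm m hm).1
        have : X n m = 1 := by simp [hX, hmp]
        rw [this, one_mul]
        exact hle m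
    have hlt2 : ρ ^ 2 * L + T * Y < 2 * ρ * T := by linarith
    rcases hY0.eq_or_lt with hY1 | hY1
    · have hT1 : T = 0 := le_antisymm (by rw [← hY1, zero_mul] at hTY; exact hTY) hT0
      rw [hT1] at hlt2
      have : 0 ≤ ρ ^ 2 * L := mul_nonneg (sq_nonneg _) hL0
      simp only [zero_mul, mul_zero, add_zero] at hlt2
      linarith
    · have h3 : Y * (ρ ^ 2 * L + T * Y) < Y * (2 * ρ * T) := mul_lt_mul_of_pos_left hlt2 hY1
      have h4 : ρ ^ 2 * T ≤ ρ ^ 2 * (Y * L) := mul_le_mul_of_nonneg_left hTY (sq_nonneg _)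
      have h5 : 0 ≤ T * (ρ - Y) ^ 2 := mul_nonneg hT0 (sq_nonneg _)
      nlinarith

/-- lower bounds for the prime sums -/
def S2Low (w : ℝ → ℝ) {k : ℕ} (h : Fin k → ℕ) (F : (Fin k → ℝ) → ℝ) (J : Fin k → ℝ) : Prop :=
  ∀ ε : ℝ, 0 < ε → ∃ δ1 : ℝ, 0 < δ1 ∧ δ1 < 1 / 8 ∧ ∀ δ : ℝ, 0 < δ → δ ≤ δ1 → Ev fun D0 x =>
  ∀ v0 : ℕ, (∀ i, (v0 + h i).Coprime (primorial D0)) → ∀ m : Fin k, ∀ l : Co (Sx D0 x) k → ℝ,
  l = lam aP (yF (Rx δ x) F) →
  Nn w k D0 δ x * (J m - ε) ≤ S2 w h D0 v0 x m l l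

/-- upper bounds for the pair sums -/
def S3Upp (w : ℝ → ℝ) {k : ℕ} (h : Fin k → ℕ) (F : (Fin k → ℝ) → ℝ) (G : Fin k → Fin k → ℝ) :
    Prop :=
  ∀ ε : ℝ, 0 < ε → ∃ δ1 : ℝ, 0 < δ1 ∧ δ1 < 1 / 8 ∧ ∀ δ : ℝ, 0 < δ → δ ≤ δ1 → Ev fun D0 x =>
  ∀ v0 : ℕ, (∀ i, (v0 + h i).Coprime (primorial D0)) → ∀ m j : Fin k, m ≠ j →
  ∀ l : Co (Sx D0 x) k → ℝ, l = lam aP (yF (Rx δ x) F) →
  S3 w h D0 v0 x m j l ≤ Nn w k D0 δ x * (G m j + ε)

theorem E_G2a (ε δ : ℝ) (h0 : 0 ≤ ε) (h1 : ε ≤ 1) (h2 : 0 ≤ δ) (h3 : δ ≤ ε / 32) :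
    1 + ε / 4 ≤ (1 + ε) * (1 - 4 * δ) := by
  nlinarith

theorem E_G2b (ε I : ℝ) (h0 : 0 ≤ ε) (h1 : ε ≤ 1) : (1 + ε) * (I + ε) ≤ I + ε * (2 + I) := by
  nlinarith

/-- Two primes in different groups, from the three sums. -/
theorem E_G2 (w : ℝ → ℝ) (hw : Wt w) (k : ℕ) (h g : Fin k → ℕ) (hk : 0 < k)
    (F : (Fin k → ℝ) → ℝ) (J : Fin k → ℝ) (G : Fin k → Fin k → ℝ) (ρ : ℝ) (hρ : 1 ≤ ρ)
    (hcrit : 4 * ρ ^ 2 * (∫ t, F t ^ 2) + ∑ z ∈ prs g, G z.1 z.2 < (2 * ρ - 1) * ∑ m, J m)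
    (h1 : S1Concl w h F) (h2 : S2Low w h F J) (h3 : S3Upp w h F G) : GrpV h g := by
  obtain ⟨xP, hxP⟩ := E_G1 w hw k h g hk
  have hI : 0 ≤ ∫ t, F t ^ 2 := integral_nonneg fun t => sq_nonneg (F t)
  set I : ℝ := ∫ t, F t ^ 2 with hIdef
  set JJ : ℝ := ∑ m, J m with hJJ
  set GG : ℝ := ∑ z ∈ prs g, G z.1 z.2 with hGG
  set c : ℝ := (2 * ρ - 1) * JJ - (4 * ρ ^ 2 * I + GG) with hc
  have hc0 : 0 < c := by linarith
  have hk0 : (0 : ℝ) < k := by exact_mod_cast hk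
  have hρ0 : 0 < ρ := by linarith
  set D : ℝ := 8 * ρ ^ 2 + 4 * ρ ^ 2 * I + (k : ℝ) ^ 2 + 2 * ρ * k + c + 1 with hD
  have hD0 : 0 < D := by positivity
  set ε : ℝ := c / (2 * D) with hε
  have hε0 : 0 < ε := by positivity
  have hcD : c ≤ D := by
    rw [hD]
    have : 0 ≤ 8 * ρ ^ 2 + 4 * ρ ^ 2 * I + (k : ℝ) ^ 2 + 2 * ρ * k := by positivity
    linarith
  have hε1 : ε ≤ 1 := by
    rw [hε, div_le_one (by positivity)]
    linarith
  have hεD : ε * (2 * D) = c := div_mul_cancel₀ c (by positivity)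
  obtain ⟨δ2, hδ2, hδ2', h2'⟩ := h2 ε hε0
  obtain ⟨δ3, hδ3, hδ3', h3'⟩ := h3 ε hε0
  set δ : ℝ := min (min δ2 δ3) (ε / 32) with hδ
  have hδ0 : 0 < δ := lt_min (lt_min hδ2 hδ3) (by positivity)
  have hδa : δ ≤ δ2 := (min_le_left _ _).trans (min_le_left _ _)
  have hδb : δ ≤ δ3 := (min_le_left _ _).trans (min_le_right _ _)
  have hδc : δ ≤ ε / 32 := min_le_right _ _
  have hδ8 : δ < 1 / 8 := lt_of_le_of_lt hδa hδ2'
  have hδ4 : 0 < 1 - 4 * δ := by linarith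
  obtain ⟨D1, hD1⟩ := h1 δ hδ0 hδ8 ε hε0
  obtain ⟨D2, hD2⟩ := h2' δ hδ0 hδa
  obtain ⟨D3, hD3⟩ := h3' δ hδ0 hδb
  refine ⟨max D1 (max D2 D3), fun D0 hD0' => ?_⟩
  obtain ⟨x1, hx1⟩ := hD1 D0 ((le_max_left _ _).trans hD0')
  obtain ⟨x2, hx2⟩ := hD2 D0 (((le_max_left _ _).trans (le_max_right _ _)).trans hD0')
  obtain ⟨x3, hx3⟩ := hD3 D0 (((le_max_right _ _).trans (le_max_right _ _)).trans hD0')
  have hlog : ∀ᶠ x : ℝ in atTop, Real.log 2 * 4 / ε < Real.log x :=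
    Real.tendsto_log_atTop.eventually_gt_atTop _
  obtain ⟨x4, hx4⟩ := eventually_atTop.1 hlog
  refine ⟨max (max xP x1) (max (max x2 x3) (max x4 2)), fun x hx v0 hv0 => ?_⟩
  simp only [ge_iff_le, max_le_iff] at hx
  obtain ⟨⟨g1, g2⟩, ⟨g3, g4⟩, g5, g6⟩ := hx
  have hx0 : 0 < x := by linarith
  have hlx : 0 < Real.log x := Real.log_pos (by linarith)
  have hlR : Real.log (Rx δ x) = (1 - 4 * δ) / 4 * Real.log x := by
    rw [Rx, Real.log_rpow hx0]
    ring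
  have hlR0 : 0 < Real.log (Rx δ x) := by
    rw [hlR]
    positivity
  have hN := MAIN_Nn hw k D0 (δ := δ) hx0 hlR0
  obtain ⟨l, hl⟩ : ∃ l : Co (Sx D0 x) k → ℝ, l = lam aP (yF (Rx δ x) F) := ⟨_, rfl⟩
  have k1 := hx1 x g2 v0 hv0 l hl
  have k2 := fun m => hx2 x g3 v0 hv0 m l hl
  have k3 := fun m j hmj => hx3 x g4 v0 hv0 m j hmj l hl
  refine hxP x g1 D0 v0 (Sx D0 x) l ρ ?_
  set S : ℝ := S1 w h D0 v0 x l l with hS
  set N : ℝ := Nn w k D0 δ x with hNdef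
  -- the primes
  have e2 : N * (JJ - k * ε) ≤ ∑ m, S2 w h D0 v0 x m l l := by
    have e1 : N * (JJ - k * ε) = ∑ m : Fin k, N * (J m - ε) := by
      rw [← Finset.mul_sum, Finset.sum_sub_distrib, Finset.sum_const, Finset.card_univ,
        Fintype.card_fin, nsmul_eq_mul, hJJ]
    rw [e1]
    exact Finset.sum_le_sum fun m _ => k2 m
  -- the pairs
  have e3 : ∑ z ∈ prs g, S3 w h D0 v0 x z.1 z.2 l ≤ N * (GG + (k : ℝ) ^ 2 * ε) := by
    have hcard : ((prs g).card : ℝ) ≤ (k : ℝ) ^ 2 := by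
      have : (prs g).card ≤ k ^ 2 := by
        refine (Finset.card_le_univ _).trans ?_
        rw [Fintype.card_prod, Fintype.card_fin, sq]
      exact_mod_cast this
    calc ∑ z ∈ prs g, S3 w h D0 v0 x z.1 z.2 l ≤ ∑ z ∈ prs g, N * (G z.1 z.2 + ε) :=
          Finset.sum_le_sum fun z hz => k3 z.1 z.2 (Finset.mem_filter.1 hz).2.1
      _ = N * (GG + (prs g).card * ε) := by
          rw [← Finset.mul_sum, Finset.sum_add_distrib, Finset.sum_const, nsmul_eq_mul, hGG]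
      _ ≤ N * (GG + (k : ℝ) ^ 2 * ε) := by
          refine mul_le_mul_of_nonneg_left ?_ hN.le
          have := mul_le_mul_of_nonneg_right hcard hε0.le
          linarith
  -- the first sum
  have hlog2x : Real.log (2 * x) = Real.log 2 + Real.log x :=
    Real.log_mul (by norm_num) hx0.ne'
  have hl2 : 0 < Real.log 2 := Real.log_pos (by norm_num)
  have e4 : Real.log (2 * x) ≤ 4 * (1 + ε) * Real.log (Rx δ x) := by
    have e5 := hx4 x g5
    rw [div_lt_iff₀ hε0] at e5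
    rw [hlR, hlog2x]
    have e6 : 4 * (1 + ε) * ((1 - 4 * δ) / 4 * Real.log x) = (1 + ε) * (1 - 4 * δ) * Real.log x := by
      ring
    rw [e6]
    have e7 : 1 + ε / 4 ≤ (1 + ε) * (1 - 4 * δ) := E_G2a ε δ hε0.le hε1 hδ0.le hδc
    have e8 : (1 + ε / 4) * Real.log x ≤ (1 + ε) * (1 - 4 * δ) * Real.log x :=
      mul_le_mul_of_nonneg_right e7 hlx.le
    have e8' : (1 + ε / 4) * Real.log x = Real.log x + Real.log x * ε / 4 := by ring
    linarith
  have hI2 : 0 ≤ I + ε := by linarith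
  -- S may be assumed nonnegative or not, both are fine
  have e9 : Real.log (2 * x) * S ≤ 4 * (1 + ε) * (N * (I + ε)) := by
    have hpos : 0 ≤ 4 * (1 + ε) := by linarith
    by_cases hS0 : 0 ≤ S
    · calc Real.log (2 * x) * S ≤ 4 * (1 + ε) * Real.log (Rx δ x) * S :=
            mul_le_mul_of_nonneg_right e4 hS0
        _ = 4 * (1 + ε) * (S * Real.log (Rx δ x)) := by ring
        _ ≤ 4 * (1 + ε) * (N * (I + ε)) := mul_le_mul_of_nonneg_left k1 hpos
    · have hS1 : Real.log (2 * x) * S ≤ 0 := by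
        rw [hlog2x]
        exact mul_nonpos_of_nonneg_of_nonpos (by linarith) (by linarith)
      have : 0 ≤ 4 * (1 + ε) * (N * (I + ε)) := mul_nonneg hpos (mul_nonneg hN.le hI2)
      linarith
  have e10 : ρ ^ 2 * (Real.log (2 * x) * S) ≤ ρ ^ 2 * (4 * (1 + ε) * (N * (I + ε))) :=
    mul_le_mul_of_nonneg_left e9 (sq_nonneg _)
  have hρ1 : 0 ≤ 2 * ρ - 1 := by linarith
  have e11 : (2 * ρ - 1) * (N * (JJ - k * ε)) ≤ (2 * ρ - 1) * ∑ m, S2 w h D0 v0 x m l l :=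
    mul_le_mul_of_nonneg_left e2 hρ1
  refine lt_of_le_of_lt (add_le_add e10 e3) (lt_of_lt_of_le ?_ e11)
  have e12 : ρ ^ 2 * (4 * (1 + ε) * (N * (I + ε))) + N * (GG + (k : ℝ) ^ 2 * ε) =
      N * (4 * ρ ^ 2 * ((1 + ε) * (I + ε)) + GG + (k : ℝ) ^ 2 * ε) := by ring
  have e13 : (2 * ρ - 1) * (N * (JJ - k * ε)) = N * ((2 * ρ - 1) * (JJ - k * ε)) := by ring
  rw [e12, e13]
  refine mul_lt_mul_of_pos_left ?_ hN
  have e14 : (1 + ε) * (I + ε) ≤ I + ε * (2 + I) := E_G2b ε I hε0.le hε1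
  have e15 : 4 * ρ ^ 2 * ((1 + ε) * (I + ε)) ≤ 4 * ρ ^ 2 * (I + ε * (2 + I)) :=
    mul_le_mul_of_nonneg_left e14 (by positivity)
  have e16 : (2 * ρ - 1) * (JJ - k * ε) ≥ (2 * ρ - 1) * JJ - 2 * ρ * k * ε := by
    have : 0 ≤ k * ε := by positivity
    have e : (2 * ρ - 1) * (JJ - k * ε) = (2 * ρ - 1) * JJ - 2 * ρ * k * ε + k * ε := by ring
    linarith
  have e17 : ε * (8 * ρ ^ 2 + 4 * ρ ^ 2 * I + (k : ℝ) ^ 2 + 2 * ρ * k) ≤ ε * D := by
    refine mul_le_mul_of_nonneg_left ?_ hε0.le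
    rw [hD]
    linarith
  have e18 : ε * D < c := by
    have : ε * (2 * D) = 2 * (ε * D) := by ring
    linarith
  have e19 : 4 * ρ ^ 2 * (I + ε * (2 + I)) + (k : ℝ) ^ 2 * ε + 2 * ρ * k * ε =
      4 * ρ ^ 2 * I + ε * (8 * ρ ^ 2 + 4 * ρ ^ 2 * I + (k : ℝ) ^ 2 + 2 * ρ * k) := by ring
  linarith

end MPb51559.BG
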