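import Pool.Agent.Work.MP_b51559_nt.BG.E.Grp

set_option autoImplicit false

/-!
# Block BG, part E: consecutive primes in different groups
-/

namespace MPb51559.BG

open Finset Filter Topology MeasureTheory
open scoped Classical

/-- Consecutive primes in different groups. -/
theorem E_G3 (k : ℕ) (h g : Fin k → ℕ) (hA : Adm h) (hg : ∀ i j, g i < g j → h i < h j)
    (hT : GrpV h g) (q a : ℕ) (hq : Squarefree q) (hqa : a.Coprime q) (hqh : ∀ i, q ∣ h i) :
    ∃ x0 : ℝ, ∀ x ≥ x0, ∃ i j : Fin k, g i < g j ∧ h i < h j ∧ Dif q a x (h j - h i) := by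
  obtain ⟨H, hH⟩ : ∃ H : ℕ, ∀ i, h i ≤ H :=
    ⟨∑ i, h i, fun i => Finset.single_le_sum (f := h) (fun j _ => Nat.zero_le _) (mem_univ i)⟩
  obtain ⟨D1, hD1⟩ := hT
  obtain ⟨D2, hD2⟩ := E_V0 k h hA H hH q a hq hqa hqh
  set D0 := max D1 D2 with hD0
  obtain ⟨x0, hx0⟩ := hD1 D0 (le_max_left _ _)
  obtain ⟨v0, hv1, ⟨hva, hqW⟩, hv2⟩ := hD2 D0 (le_max_right _ _)
  refine ⟨max x0 D0, fun x hx => ?_⟩
  obtain ⟨n, hn, hxn, hn2, i1, i2, hi12, hp1, hp2⟩ := hx0 x ((le_max_left _ _).trans hx) v0 hv1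
  have hDn : D0 < n := by
    have h1 : (D0 : ℝ) ≤ x := (le_max_right _ _).trans hx
    exact_mod_cast lt_of_le_of_lt h1 hxn
  -- the other numbers are composite
  have hcomp : ∀ t ≤ H, (∀ i, h i ≠ t) → ¬ (n + t).Prime := by
    intro t ht hne hprime
    obtain ⟨u, hu, huD, hud⟩ := hv2 t ht hne
    have huW : u ∣ primorial D0 := by
      rw [primorial]
      exact Finset.dvd_prod_of_mem (fun p => p)
        (Finset.mem_filter.2 ⟨Finset.mem_range.2 (Nat.lt_succ_of_le huD), hu⟩)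
    have h1 : n + t ≡ v0 + t [MOD primorial D0] := hn.add_right t
    have h2 : u ∣ n + t := (h1.dvd_iff huW).2 hud
    have h3 := (Nat.prime_dvd_prime_iff_eq hu hprime).1 h2
    omega
  -- the two groups, in order
  obtain ⟨i3, i4, h34, hp3, hp4⟩ : ∃ i j : Fin k, g i < g j ∧ (n + h i).Prime ∧
      (n + h j).Prime := by
    rcases lt_or_gt_of_ne hi12 with h1 | h1
    · exact ⟨i1, i2, h1, hp1, hp2⟩
    · exact ⟨i2, i1, h1, hp2, hp1⟩
  set A : Finset (Fin k) := univ.filter fun i => (n + h i).Prime ∧ g i ≤ g i3 with hAdef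
  set B : Finset (Fin k) := univ.filter fun i => (n + h i).Prime ∧ g i3 < g i with hBdef
  have hi3A : i3 ∈ A := Finset.mem_filter.2 ⟨mem_univ _, hp3, le_rfl⟩
  have hi4B : i4 ∈ B := Finset.mem_filter.2 ⟨mem_univ _, hp4, h34⟩
  obtain ⟨i, hiA, himax⟩ := Finset.exists_max_image A h ⟨i3, hi3A⟩
  obtain ⟨j, hjB, hjmin⟩ := Finset.exists_min_image B h ⟨i4, hi4B⟩
  obtain ⟨_, hip, hig⟩ := Finset.mem_filter.1 hiA
  obtain ⟨_, hjp, hjg⟩ := Finset.mem_filter.1 hjB
  have hgij : g i < g j := lt_of_le_of_lt hig hjg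
  have hij : h i < h j := hg i j hgij
  refine ⟨i, j, hgij, hij, n + h i, n + h j, hip, hjp, ?_, by omega, ?_, ?_, ?_, by omega⟩
  · have : (n : ℝ) ≤ ((n + h i : ℕ) : ℝ) := by exact_mod_cast Nat.le_add_right _ _
    linarith
  · have := hn2 j
    push_cast
    exact this
  · intro r hr1 hr2 hr
    obtain ⟨t, rfl⟩ : ∃ t, r = n + t := ⟨r - n, by omega⟩
    have htH : t ≤ H := by
      have := hH j
      omega
    by_cases hex : ∃ l, h l = t
    · obtain ⟨l, rfl⟩ := hex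
      rcases le_or_gt (g l) (g i3) with h1 | h1
      · have := himax l (Finset.mem_filter.2 ⟨mem_univ _, hr, h1⟩)
        omega
      · have := hjmin l (Finset.mem_filter.2 ⟨mem_univ _, hr, h1⟩)
        omega
    · exact hcomp t htH (fun l hl => hex ⟨l, hl⟩) hr
  · have h1 : n ≡ a [MOD q] := (hn.of_dvd hqW).trans hva
    have h2 : h i ≡ 0 [MOD q] := Nat.modEq_zero_iff_dvd.2 (hqh i)
    simpa using h1.add h2

/-- Uniformity over all tuples of bounded size. -/
theorem E_G4 (k H : ℕ) (g : Fin k → ℕ) (hT : ∀ h : Fin k → ℕ, Adm h → GrpV h g) (s q a : ℕ)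
    (hs : 0 < s) (hq : Squarefree q) (hqs : q ∣ s) (hqa : a.Coprime q) :
    ∃ x0 : ℝ, ∀ x ≥ x0, ∀ b : Fin k → ℕ, Function.Injective b →
      (∀ i, b i ≤ H ∧ (b i).Coprime (primorial k)) → (∀ i j, g i < g j → b i < b j) →
      ∃ i j : Fin k, g i < g j ∧ b i < b j ∧ Dif q a x (s * (b j - b i)) ∧
        DifI q a (s * (b j - b i)) := by
  have hev : ∀ᶠ x : ℝ in atTop, ∀ b ∈ Fintype.piFinset (fun _ : Fin k => range (H + 1)),
      Function.Injective b → (∀ i, (b i).Coprime (primorial k)) → (∀ i j, g i < g j → b i < b j) →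
      ∃ i j : Fin k, g i < g j ∧ b i < b j ∧ Dif q a x (s * (b j - b i)) := by
    rw [Filter.eventually_all_finset]
    intro b _
    by_cases h1 : Function.Injective b ∧ (∀ i, (b i).Coprime (primorial k)) ∧
        ∀ i j, g i < g j → b i < b j
    · have hA := E_adm k b h1.1 h1.2.1 s hs
      obtain ⟨x0, hx0⟩ := E_G3 k (fun i => s * b i) g hA
        (fun i j hij => Nat.mul_lt_mul_of_pos_left (h1.2.2 i j hij) hs) (hT _ hA) q a hq hqa
        (fun i => hqs.mul_right _)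
      filter_upwards [eventually_ge_atTop x0] with x hx _ _ _
      obtain ⟨i, j, hg, hij, hd⟩ := hx0 x hx
      refine ⟨i, j, hg, lt_of_mul_lt_mul_left hij (Nat.zero_le s), ?_⟩
      rw [Nat.mul_sub]
      exact hd
    · exact Filter.Eventually.of_forall fun x h2 h3 h4 => absurd ⟨h2, h3, h4⟩ h1
  have hev2 : ∀ᶠ x : ℝ in atTop, ∀ m ∈ Icc 1 H, Dif q a x (s * m) → DifI q a (s * m) := by
    rw [Filter.eventually_all_finset]
    intro m _
    by_cases hd : DifI q a (s * m)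
    · exact Filter.Eventually.of_forall fun x _ => hd
    · obtain ⟨y, hy⟩ := not_forall.1 hd
      filter_upwards [eventually_ge_atTop y] with x hx hdif
      obtain ⟨p, p', h1, h2, h3, h4, _, h6, h7, h8⟩ := hdif
      exact absurd ⟨p, p', h1, h2, lt_of_le_of_lt hx h3, h4, h6, h7, h8⟩ hy
  obtain ⟨x0, hx0⟩ := eventually_atTop.1 (hev.and hev2)
  refine ⟨x0, fun x hx b hinj hh hgb => ?_⟩
  obtain ⟨e1, e2⟩ := hx0 x hx
  obtain ⟨i, j, hg, hij, hd⟩ := e1 b
    (Fintype.mem_piFinset.2 fun i => Finset.mem_range.2 (Nat.lt_succ_of_le (hh i).1)) hinj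
    (fun i => (hh i).2) hgb
  refine ⟨i, j, hg, hij, hd, e2 (b j - b i) (Finset.mem_Icc.2 ⟨?_, ?_⟩) hd⟩
  · exact Nat.sub_pos_of_lt hij
  · exact (Nat.sub_le _ _).trans (hh j).1

end MPb51559.BG
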