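import Pool.Agent.Work.MP_b51559_nt.BG.E.Grq
import Pool.Agent.Work.MP_b51559_nt.BG.Q.Defs
import Pool.Agent.Work.MP_b51559_nt.DP.Defs

set_option autoImplicit false

/-!
# Block BG, part E: the five groups property for the differences of consecutive primes
(from the interfaces SEC and FUN of block BG/Q, helper86, helper97)
-/

namespace MPb51559.BG

open Finset Filter Topology MeasureTheory
open scoped Classical

/-- the number of the group -/
def gr5 (κ : ℕ) (i : Fin (5 * κ)) : ℕ := ((finProdFinEquiv.symm i).1 : Fin 5)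

/-- Five groups, for every injective tuple. -/
theorem E_five' (hBV : BVE) (hP : PNTW) (hSEC : Q.SEC) (hFUN : Q.FUN) :
    ∃ κ : ℕ, 0 < κ ∧ ∀ h : Fin (5 * κ) → ℕ, Function.Injective h → GrpV h (gr5 κ) := by
  obtain ⟨K0, hK0⟩ := hFUN (1 / 20) (by norm_num)
  set κ := K0 + 1 with hκ
  refine ⟨κ, Nat.succ_pos K0, fun h hinj => ?_⟩
  obtain ⟨s, μ, I, J, B, F, hs0, hs1, hμ, hB, hF, hI, hJ, hG, hmain⟩ := hK0 (5 * κ) (by omega)
  let g : Fin (5 * κ) → Fin 5 := fun i => (finProdFinEquiv.symm i).1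
  have hcrit : (∑ m, ∑ j, if m ≠ j ∧ g m = g j then Q.GG F m j / (1 - s) else 0) +
      4 * μ ^ 2 * ∫ t, F t ^ 2 < (2 * μ - 1) * ∑ m, Q.JJ F m := by
    have h1s : 0 < 1 - s := by linarith
    have e1 : (∑ m, ∑ j, if m ≠ j ∧ g m = g j then Q.GG F m j / (1 - s) else 0) ≤
        (1 / 4 - 1 / 20) * ((5 * κ : ℕ) : ℝ) ^ 2 * (B / (1 - s)) := by
      have hB' : 0 ≤ B / (1 - s) := by positivity
      have e2 : ∀ m : Fin (5 * κ), (∑ j, if m ≠ j ∧ g m = g j then Q.GG F m j / (1 - s) else 0) ≤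
          κ * (B / (1 - s)) := by
        intro m
        calc (∑ j, if m ≠ j ∧ g m = g j then Q.GG F m j / (1 - s) else 0)
            ≤ ∑ j, if g m = g j then B / (1 - s) else 0 := by
              refine sum_le_sum fun j _ => ?_
              by_cases h1 : m ≠ j ∧ g m = g j
              · rw [if_pos h1, if_pos h1.2]
                exact div_le_div_of_nonneg_right (hG m j h1.1) h1s.le
              · rw [if_neg h1]
                split_ifs
                · exact hB'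
                · exact le_refl 0
          _ = ((univ.filter fun j => g m = g j).card : ℝ) * (B / (1 - s)) := by
              rw [← sum_filter, sum_const, nsmul_eq_mul]
          _ = κ * (B / (1 - s)) := by
              congr 2
              have : (univ.filter fun j => g m = g j).card = (univ : Finset (Fin κ)).card := by
                symm
                refine card_bij (fun c _ => finProdFinEquiv (g m, c)) ?_ ?_ ?_
                · intro c _
                  refine mem_filter.2 ⟨mem_univ _, ?_⟩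
                  show g m = (finProdFinEquiv.symm (finProdFinEquiv (g m, c))).1
                  rw [Equiv.symm_apply_apply]
                · intro c _ c' _ hcc
                  have := finProdFinEquiv.injective hcc
                  exact (Prod.ext_iff.1 this).2
                · intro j hj
                  refine ⟨(finProdFinEquiv.symm j).2, mem_univ _, ?_⟩
                  have h2 : g m = (finProdFinEquiv.symm j).1 := (mem_filter.1 hj).2
                  rw [h2]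
                  exact finProdFinEquiv.apply_symm_apply j
              rw [this, card_univ, Fintype.card_fin]
      calc (∑ m, ∑ j, if m ≠ j ∧ g m = g j then Q.GG F m j / (1 - s) else 0)
          ≤ ∑ m : Fin (5 * κ), κ * (B / (1 - s)) := sum_le_sum fun m _ => e2 m
        _ = (5 * κ : ℕ) * (κ * (B / (1 - s))) := by
            rw [sum_const, card_univ, Fintype.card_fin, nsmul_eq_mul]
        _ = (1 / 4 - 1 / 20) * ((5 * κ : ℕ) : ℝ) ^ 2 * (B / (1 - s)) := by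
            push_cast; ring
    have e3 : ((5 * κ : ℕ) : ℝ) * J ≤ ∑ m, Q.JJ F m := by
      calc ((5 * κ : ℕ) : ℝ) * J = ∑ m : Fin (5 * κ), J := by
            rw [sum_const, card_univ, Fintype.card_fin, nsmul_eq_mul]
        _ ≤ _ := sum_le_sum fun m _ => hJ m
    have e4 : 4 * μ ^ 2 * ∫ t, F t ^ 2 ≤ 4 * μ ^ 2 * I := by
      exact mul_le_mul_of_nonneg_left hI (by positivity)
    have e5 : (2 * μ - 1) * (((5 * κ : ℕ) : ℝ) * J) ≤ (2 * μ - 1) * ∑ m, Q.JJ F m :=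
      mul_le_mul_of_nonneg_left e3 (by linarith)
    linarith
  obtain ⟨D1, hD1⟩ := hSEC hBV hP (5 * κ) h hinj s μ F hs0 hs1 hF (fun m j => g m = g j)
    (by convert hcrit)
  refine ⟨D1, fun D0 hD0 => ?_⟩
  obtain ⟨x0, hx0⟩ := hD1 D0 hD0
  refine ⟨x0, fun x hx v0 hv0 => ?_⟩
  obtain ⟨n, hn1, hn2, hn3, m, j, _, hE, hm, hj⟩ := hx0 x hx v0 hv0
  exact ⟨n, hn1, hn2, hn3, m, j, fun hc => hE (Fin.ext hc), hm, hj⟩

theorem E_five (hBV : BVE) (hP : PNTW) (hSEC : Q.SEC) (hFUN : Q.FUN) :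
    ∃ κ : ℕ, ∀ h : Fin (5 * κ) → ℕ, Function.Injective h → GrpV h (gr5 κ) := by
  obtain ⟨κ, _, hκ⟩ := E_five' hBV hP hSEC hFUN
  exact ⟨κ, hκ⟩

/-- The five groups property. -/
theorem E_Grp5 (hBV : BVE) (hP : PNTW) (hSEC : Q.SEC) (hFUN : Q.FUN) :
    ∃ κ z : ℕ, ∀ s q a : ℕ, 0 < s → Squarefree q → q ∣ s → a.Coprime q → ∀ H : ℕ,
      ∃ x0 : ℝ, ∀ x ≥ x0, ∀ P : Set ℕ, (∀ m, m ∈ P ↔ Dif q a x (s * m) ∧ DifI q a (s * m)) →
        DP.Grp5 κ z P H := by
  obtain ⟨κ, hκ⟩ := E_five hBV hP hSEC hFUN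
  refine ⟨κ, 5 * κ, fun s q a hs hq hqs hqa H => ?_⟩
  obtain ⟨x0, hx0⟩ := E_G4 (5 * κ) H (gr5 κ) (fun h hA => hκ h hA.1) s q a hs hq hqs hqa
  refine ⟨x0, fun x hx P hPm A hA hAb hAo => ?_⟩
  let b : Fin (5 * κ) → ℕ := fun i =>
    (A (finProdFinEquiv.symm i).1).orderEmbOfFin (hA _) (finProdFinEquiv.symm i).2
  have hmem : ∀ i, b i ∈ A (finProdFinEquiv.symm i).1 := fun i => Finset.orderEmbOfFin_mem _ _ _
  have hord : ∀ i j, gr5 κ i < gr5 κ j → b i < b j := by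
    intro i j hij
    exact hAo (finProdFinEquiv.symm i).1 (finProdFinEquiv.symm j).1 (Fin.lt_def.2 hij) _ (hmem i)
      _ (hmem j)
  have hinj : Function.Injective b := by
    intro i j hij
    have hg : (finProdFinEquiv.symm i).1 = (finProdFinEquiv.symm j).1 := by
      rcases lt_trichotomy (gr5 κ i) (gr5 κ j) with h1 | h1 | h1
      · exact absurd hij (hord i j h1).ne
      · exact Fin.ext h1
      · exact absurd hij (hord j i h1).ne'
    have hij' : (A (finProdFinEquiv.symm i).1).orderEmbOfFin (hA _) (finProdFinEquiv.symm i).2 =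
      (A (finProdFinEquiv.symm j).1).orderEmbOfFin (hA _) (finProdFinEquiv.symm j).2 := hij
    have h2 : (finProdFinEquiv.symm i) = (finProdFinEquiv.symm j) := by
      refine Prod.ext hg ?_
      generalize hu : finProdFinEquiv.symm i = u at *
      generalize hw : finProdFinEquiv.symm j = w at *
      obtain ⟨u1, u2⟩ := u
      obtain ⟨w1, w2⟩ := w
      simp only at hg
      subst hg
      simp only at hij'
      exact (RelEmbedding.injective _ hij')
    exact finProdFinEquiv.symm.injective h2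
  obtain ⟨i, j, hg, hij, h1, h2⟩ := hx0 x hx b hinj
    (fun i => ⟨(hAb _ _ (hmem i)).2.1, (hAb _ _ (hmem i)).2.2⟩) hord
  exact ⟨(finProdFinEquiv.symm i).1, (finProdFinEquiv.symm j).1, Fin.lt_def.2 hg, b i, hmem i,
    b j, hmem j, (hPm _).2 ⟨h1, h2⟩⟩

/-- The final statement from the uniform theorem of block DP. -/
theorem E_uni14 (hBV : BVE) (hP : PNTW) (hSEC : Q.SEC) (hFUN : Q.FUN)
    (hU : ∀ κ z : ℕ, ∃ C r : ℕ, ∀ (H : ℕ) (P : Set ℕ), DP.Grp5 κ z P H →
      ∃ T : Finset ℕ, T.card ≤ r ∧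
      ∀ N ≤ H, 100 * N ≤ 1396 * (DN.PP P N).card ∨ N ≤ C ∨ ∃ t ∈ T, t ≤ N ∧ N ≤ C * t) :
    ∃ C r : ℕ, ∀ s q a : ℕ, 0 < s → Squarefree q → q ∣ s → a.Coprime q →
      ∀ H : ℕ, ∃ x₀ : ℝ, ∀ x : ℝ, x₀ ≤ x → ∃ T : Finset ℕ, T.card ≤ r ∧
        ∀ N : ℕ, C < N → N ≤ H → (∀ t ∈ T, ¬ (t ≤ N ∧ N ≤ C * t)) →
          100 * N ≤ 1396 * Set.ncard {m : ℕ | 1 ≤ m ∧ m ≤ N ∧
            (∃ p p' : ℕ, p.Prime ∧ p'.Prime ∧ x < p ∧ (p' : ℝ) < 2 * x ∧ p < p' ∧
              (∀ l : ℕ, p < l → l < p' → ¬ l.Prime) ∧ p ≡ a [MOD q] ∧ p' - p = s * m) ∧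
            (∀ y : ℝ, ∃ p p' : ℕ, p.Prime ∧ p'.Prime ∧ y < p ∧ p < p' ∧
              (∀ l : ℕ, p < l → l < p' → ¬ l.Prime) ∧ p ≡ a [MOD q] ∧ p' - p = s * m)} := by
  obtain ⟨κ, z, hG⟩ := E_Grp5 hBV hP hSEC hFUN
  obtain ⟨C, r, hU⟩ := hU κ z
  refine ⟨C, r, fun s q a hs hq hqs hqa H => ?_⟩
  obtain ⟨x0, hx0⟩ := hG s q a hs hq hqs hqa H
  refine ⟨x0, fun x hx => ?_⟩
  obtain ⟨P, hPm⟩ : ∃ P : Set ℕ, ∀ m, m ∈ P ↔ Dif q a x (s * m) ∧ DifI q a (s * m) :=
    ⟨{m | Dif q a x (s * m) ∧ DifI q a (s * m)}, fun _ => Iff.rfl⟩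
  obtain ⟨T, hT, hN⟩ := hU H P (hx0 x hx P hPm)
  refine ⟨T, hT, fun N hCN hNH hne => ?_⟩
  have h1 : 100 * N ≤ 1396 * (DN.PP P N).card := by
    rcases hN N hNH with h2 | h2 | ⟨t, ht, h3, h4⟩
    · exact h2
    · omega
    · exact absurd ⟨h3, h4⟩ (hne t ht)
  refine h1.trans (Nat.mul_le_mul_left _ ?_)
  rw [← Set.ncard_coe_finset]
  have hfin : (Set.Icc 1 N).Finite := Set.finite_Icc 1 N
  refine Set.ncard_le_ncard ?_ (hfin.subset fun d hd => ⟨hd.1, hd.2.1⟩)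
  intro m hm
  have hm' : m ∈ DN.PP P N := Finset.mem_coe.1 hm
  rw [DN.PP, Finset.mem_filter] at hm'
  obtain ⟨h2, h3⟩ := hm'
  obtain ⟨h4, h5⟩ := Finset.mem_Icc.1 h2
  obtain ⟨⟨p, p', a1, a2, a3, a4, a5, a6, a7, a8⟩, hI⟩ := (hPm m).1 h3
  refine ⟨h4, h5, ⟨p, p', a1, a2, a3, a5, a4, a6, a7, by omega⟩, fun y => ?_⟩
  obtain ⟨p, p', b1, b2, b3, b4, b5, b6, b7⟩ := hI y
  exact ⟨p, p', b1, b2, b3, b4, b5, b6, by omega⟩

end MPb51559.BG
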