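import Pool.Agent.Work.MP_b51559_nt.BG.E.Grs

set_option autoImplicit false

/-!
# Block BG, part E: one seventh of the multiples of every even number are differences of consecutive
primes (final form)
-/

namespace MPb51559.BG

open Finset Filter Topology MeasureTheory
open scoped Classical

/-- A translate of an admissible tuple of multiples. -/
theorem E_shift (k : ℕ) (b : Fin k → ℕ) (s : ℕ) (hA : Adm fun i => s * b i) :
    Adm fun i => s * (b i + 1) := by
  refine ⟨fun i j hij => hA.1 ?_, fun p hp => ?_⟩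
  · have h1 : s * (b i + 1) = s * (b j + 1) := hij
    have h2 : s * b i = s * b j := by
      have e1 : s * (b i + 1) = s * b i + s := by ring
      have e2 : s * (b j + 1) = s * b j + s := by ring
      omega
    exact h2
  · obtain ⟨v, hv⟩ := hA.2 p hp
    refine ⟨v + s * (p - 1), fun i hd => hv i ?_⟩
    have hp1 : p - 1 + 1 = p := Nat.sub_add_cancel hp.one_lt.le
    have e1 : v + s * (p - 1) + s * (b i + 1) = v + s * b i + s * p := by
      calc v + s * (p - 1) + s * (b i + 1) = v + s * b i + s * (p - 1 + 1) := by ring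
        _ = v + s * b i + s * p := by rw [hp1]
    have hd' : p ∣ v + s * (p - 1) + s * (b i + 1) := hd
    rw [e1] at hd'
    exact (Nat.dvd_add_left (dvd_mul_left p s)).1 hd'

/-- Uniformity over all tuples of bounded size, with a modulus dividing `2 s`. -/
theorem E_G5 (k H : ℕ) (hk : 2 ≤ k) (g : Fin k → ℕ) (hT : ∀ h : Fin k → ℕ, Adm h → GrpV h g)
    (s q a : ℕ) (hs : 0 < s) (hq : Squarefree q) (hqs : q ∣ 2 * s) (hqa : a.Coprime q) :
    ∃ x0 : ℝ, ∀ x ≥ x0, ∀ b : Fin k → ℕ, Function.Injective b →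
      (∀ i, b i ≤ H ∧ (b i).Coprime (primorial k)) → (∀ i j, g i < g j → b i < b j) →
      ∃ i j : Fin k, g i < g j ∧ b i < b j ∧ 2 ∣ b j - b i ∧ Dif q a x (s * (b j - b i)) ∧
        DifI q a (s * (b j - b i)) := by
  have h2k : 2 ∣ primorial k := by
    rw [primorial]
    exact Finset.dvd_prod_of_mem (fun p => p)
      (Finset.mem_filter.2 ⟨Finset.mem_range.2 (Nat.lt_succ_of_le hk), Nat.prime_two⟩)
  have hodd : ∀ c : ℕ, c.Coprime (primorial k) → c % 2 = 1 := by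
    intro c hc
    have h1 : c.Coprime 2 := Nat.Coprime.coprime_dvd_right h2k hc
    rcases Nat.mod_two_eq_zero_or_one c with h3 | h3
    · exfalso
      have h4 : 2 ∣ c := Nat.dvd_of_mod_eq_zero h3
      have h5 := Nat.dvd_gcd h4 (dvd_refl 2)
      rw [h1] at h5
      omega
    · exact h3
  have hev : ∀ᶠ x : ℝ in atTop, ∀ b ∈ Fintype.piFinset (fun _ : Fin k => range (H + 1)),
      Function.Injective b → (∀ i, (b i).Coprime (primorial k)) → (∀ i j, g i < g j → b i < b j) →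
      ∃ i j : Fin k, g i < g j ∧ b i < b j ∧ Dif q a x (s * (b j - b i)) := by
    rw [Filter.eventually_all_finset]
    intro b _
    by_cases h1 : Function.Injective b ∧ (∀ i, (b i).Coprime (primorial k)) ∧
        ∀ i j, g i < g j → b i < b j
    · have hA := E_shift k b s (E_adm k b h1.1 h1.2.1 s hs)
      obtain ⟨x0, hx0⟩ := E_G3 k (fun i => s * (b i + 1)) g hA
        (fun i j hij => Nat.mul_lt_mul_of_pos_left (Nat.succ_lt_succ (h1.2.2 i j hij)) hs)
        (hT _ hA) q a hq hqa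
        (fun i => by
          obtain ⟨c, hc⟩ : 2 ∣ b i + 1 := by
            have := hodd (b i) (h1.2.1 i)
            omega
          show q ∣ s * (b i + 1)
          rw [hc]
          have e : s * (2 * c) = 2 * s * c := by ring
          rw [e]
          exact hqs.mul_right _)
      filter_upwards [eventually_ge_atTop x0] with x hx _ _ _
      obtain ⟨i, j, hg, hij, hd⟩ := hx0 x hx
      have hij' : b i < b j := h1.2.2 i j hg
      refine ⟨i, j, hg, hij', ?_⟩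
      have e : s * (b j + 1) - s * (b i + 1) = s * (b j - b i) := by
        rw [← Nat.mul_sub]
        congr 1
        omega
      rw [e] at hd
      exact hd
    · exact Filter.Eventually.of_forall fun x h2 h3 h4 => absurd ⟨h2, h3, h4⟩ h1
  have hev2 : ∀ᶠ x : ℝ in atTop, ∀ m ∈ Icc 1 H, Dif q a x (s * m) → DifI q a (s * m) := by
    rw [Filter.eventually_all_finset]
    intro m _
    by_cases hd : DifI q a (s * m)
    · exact Filter.Eventually.of_forall fun x _ => hd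
    · obtain ⟨y, hy⟩ := not_forall.1 hd
      filter_upwards [eventually_ge_atTop y] with x hx hdif
      obtain ⟨p, p', h1, h2, h3, h4, _, h6, h7, h8⟩ := hdif
      exact absurd ⟨p, p', h1, h2, lt_of_le_of_lt hx h3, h4, h6, h7, h8⟩ hy
  obtain ⟨x0, hx0⟩ := eventually_atTop.1 (hev.and hev2)
  refine ⟨x0, fun x hx b hinj hh hgb => ?_⟩
  obtain ⟨e1, e2⟩ := hx0 x hx
  obtain ⟨i, j, hg, hij, hd⟩ := e1 b
    (Fintype.mem_piFinset.2 fun i => Finset.mem_range.2 (Nat.lt_succ_of_le (hh i).1)) hinj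
    (fun i => (hh i).2) hgb
  refine ⟨i, j, hg, hij, ?_, hd, e2 (b j - b i) (Finset.mem_Icc.2 ⟨?_, ?_⟩) hd⟩
  · have h3 := hodd (b i) (hh i).2
    have h4 := hodd (b j) (hh j).2
    omega
  · exact Nat.sub_pos_of_lt hij
  · exact (Nat.sub_le _ _).trans (hh j).1

/-- The five groups property, multiples of the even number `2 s`. -/
theorem E_Grp5e (hBV : BVE) (hP : PNTW) (hSEC : Q.SEC) (hFUN : Q.FUN) :
    ∃ κ z : ℕ, ∀ s q a : ℕ, 0 < s → Squarefree q → q ∣ 2 * s → a.Coprime q → ∀ H : ℕ,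
      ∃ x0 : ℝ, ∀ x ≥ x0, ∀ P : Set ℕ,
        (∀ m, m ∈ P ↔ 2 ∣ m ∧ Dif q a x (s * m) ∧ DifI q a (s * m)) → DP.Grp5 κ z P H := by
  obtain ⟨κ, hκ0, hκ⟩ := E_five' hBV hP hSEC hFUN
  refine ⟨κ, 5 * κ, fun s q a hs hq hqs hqa H => ?_⟩
  obtain ⟨x0, hx0⟩ := E_G5 (5 * κ) H (by omega) (gr5 κ) (fun h hA => hκ h hA.1) s q a hs hq hqs hqa
  refine ⟨x0, fun x hx P hPm A hA hAb hAo => ?_⟩
  let b : Fin (5 * κ) → ℕ := fun i =>
    (A (finProdFinEquiv.symm i).1).orderEmbOfFin (hA _) (finProdFinEquiv.symm i).2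
  have hmem : ∀ i, b i ∈ A (finProdFinEquiv.symm i).1 := fun i => Finset.orderEmbOfFin_mem _ _ _
  have hord : ∀ i j, gr5 κ i < gr5 κ j → b i < b j := by
    intro i j hij
    exact hAo (finProdFinEquiv.symm i).1 (finProdFinEquiv.symm j).1 (Fin.lt_def.2 hij) _ (hmem i)
      _ (hmem j)
  have hinj : Function.Injective b := by
    intro i j hij
    have hg : (finProdFinEquiv.symm i).1 = (finProdFinEquiv.symm j).1 := by
      rcases lt_trichotomy (gr5 κ i) (gr5 κ j) with h1 | h1 | h1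
      · exact absurd hij (hord i j h1).ne
      · exact Fin.ext h1
      · exact absurd hij (hord j i h1).ne'
    have hij' : (A (finProdFinEquiv.symm i).1).orderEmbOfFin (hA _) (finProdFinEquiv.symm i).2 =
      (A (finProdFinEquiv.symm j).1).orderEmbOfFin (hA _) (finProdFinEquiv.symm j).2 := hij
    have h2 : (finProdFinEquiv.symm i) = (finProdFinEquiv.symm j) := by
      refine Prod.ext hg ?_
      generalize hu : finProdFinEquiv.symm i = u at *
      generalize hw : finProdFinEquiv.symm j = w at *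
      obtain ⟨u1, u2⟩ := u
      obtain ⟨w1, w2⟩ := w
      simp only at hg
      subst hg
      simp only at hij'
      exact (RelEmbedding.injective _ hij')
    exact finProdFinEquiv.symm.injective h2
  obtain ⟨i, j, hg, hij, h0, h1, h2⟩ := hx0 x hx b hinj
    (fun i => ⟨(hAb _ _ (hmem i)).2.1, (hAb _ _ (hmem i)).2.2⟩) hord
  exact ⟨(finProdFinEquiv.symm i).1, (finProdFinEquiv.symm j).1, Fin.lt_def.2 hg, b i, hmem i,
    b j, hmem j, (hPm _).2 ⟨h0, h1, h2⟩⟩

/-- THE FINAL STATEMENT from the uniform theorem of block DP. -/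
theorem E_uni7 (hBV : BVE) (hP : PNTW) (hSEC : Q.SEC) (hFUN : Q.FUN)
    (hU : ∀ κ z : ℕ, ∃ C r : ℕ, ∀ (H : ℕ) (P : Set ℕ), DP.Grp5 κ z P H →
      ∃ T : Finset ℕ, T.card ≤ r ∧
      ∀ N ≤ H, 100 * N ≤ 1396 * (DN.PP P N).card ∨ N ≤ C ∨ ∃ t ∈ T, t ≤ N ∧ N ≤ C * t) :
    ∃ C r : ℕ, ∀ h q a : ℕ, 0 < h → Even h → Squarefree q → q ∣ h → a.Coprime q →
      ∀ H : ℕ, ∃ x₀ : ℝ, ∀ x : ℝ, x₀ ≤ x → ∃ T : Finset ℕ, T.card ≤ r ∧
        ∀ N : ℕ, C < N → N ≤ H → (∀ t ∈ T, ¬ (t ≤ N ∧ N ≤ C * t)) →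
          100 * N ≤ 698 * Set.ncard {j : ℕ | 1 ≤ j ∧ j ≤ N ∧
            (∃ p p' : ℕ, p.Prime ∧ p'.Prime ∧ x < p ∧ (p' : ℝ) < 2 * x ∧ p < p' ∧
              (∀ l : ℕ, p < l → l < p' → ¬ l.Prime) ∧ p ≡ a [MOD q] ∧ p' - p = j * h) ∧
            (∀ y : ℝ, ∃ p p' : ℕ, p.Prime ∧ p'.Prime ∧ y < p ∧ p < p' ∧
              (∀ l : ℕ, p < l → l < p' → ¬ l.Prime) ∧ p ≡ a [MOD q] ∧ p' - p = j * h)} := by
  obtain ⟨κ, z, hG⟩ := E_Grp5e hBV hP hSEC hFUN
  obtain ⟨C, r, hU⟩ := hU κ z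
  refine ⟨C, r, fun h q a hh hev hq hqh hqa H => ?_⟩
  obtain ⟨s, hs'⟩ := hev
  have hs2 : h = 2 * s := by omega
  have hs : 0 < s := by omega
  obtain ⟨x0, hx0⟩ := hG s q a hs hq (hs2 ▸ hqh) hqa (2 * H)
  refine ⟨x0, fun x hx => ?_⟩
  obtain ⟨P, hPm⟩ : ∃ P : Set ℕ, ∀ m, m ∈ P ↔ 2 ∣ m ∧ Dif q a x (s * m) ∧ DifI q a (s * m) :=
    ⟨{m | 2 ∣ m ∧ Dif q a x (s * m) ∧ DifI q a (s * m)}, fun _ => Iff.rfl⟩
  obtain ⟨T, hT, hN⟩ := hU (2 * H) P (hx0 x hx P hPm)
  refine ⟨T.image fun t => (t + 1) / 2, Finset.card_image_le.trans hT, fun N hCN hNH hne => ?_⟩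
  have h1 : 100 * (2 * N) ≤ 1396 * (DN.PP P (2 * N)).card := by
    rcases hN (2 * N) (by omega) with h2 | h2 | ⟨t, ht, h3, h4⟩
    · exact h2
    · omega
    · exfalso
      refine hne ((t + 1) / 2) (Finset.mem_image_of_mem _ ht) ⟨by omega, ?_⟩
      have h5 : t ≤ 2 * ((t + 1) / 2) := by omega
      have h6 : 2 * N ≤ 2 * (C * ((t + 1) / 2)) := by
        calc 2 * N ≤ C * t := h4
          _ ≤ C * (2 * ((t + 1) / 2)) := Nat.mul_le_mul_left C h5
          _ = 2 * (C * ((t + 1) / 2)) := by ring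
      omega
  have h1' : 100 * N ≤ 698 * (DN.PP P (2 * N)).card := by omega
  refine h1'.trans (Nat.mul_le_mul_left _ ?_)
  rw [← Set.ncard_coe_finset]
  have hfin : (Set.Icc 1 N).Finite := Set.finite_Icc 1 N
  refine Set.ncard_le_ncard_of_injOn (fun m => m / 2) ?_ ?_
    (hfin.subset fun d hd => ⟨hd.1, hd.2.1⟩)
  · intro m hm
    have hm' : m ∈ DN.PP P (2 * N) := Finset.mem_coe.1 hm
    rw [DN.PP, Finset.mem_filter] at hm'
    obtain ⟨h2, h3⟩ := hm'
    obtain ⟨h4, h5⟩ := Finset.mem_Icc.1 h2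
    obtain ⟨⟨j, rfl⟩, ⟨p, p', a1, a2, a3, a4, a5, a6, a7, a8⟩, hI⟩ := (hPm m).1 h3
    have e0 : 2 * j / 2 = j := by omega
    show 2 * j / 2 ∈ _
    rw [e0]
    have e1 : s * (2 * j) = j * h := by
      rw [hs2]
      ring
    rw [e1] at a8
    refine ⟨by omega, by omega, ⟨p, p', a1, a2, a3, a5, a4, a6, a7, by omega⟩, fun y => ?_⟩
    obtain ⟨p, p', b1, b2, b3, b4, b5, b6, b7⟩ := hI y
    rw [e1] at b7
    exact ⟨p, p', b1, b2, b3, b4, b5, b6, by omega⟩
  · intro m hm m' hm' hmm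
    have hm1 : m ∈ DN.PP P (2 * N) := Finset.mem_coe.1 hm
    have hm2 : m' ∈ DN.PP P (2 * N) := Finset.mem_coe.1 hm'
    rw [DN.PP, Finset.mem_filter] at hm1 hm2
    have e1 := ((hPm m).1 hm1.2).1
    have e2 := ((hPm m').1 hm2.2).1
    have e3 : m / 2 = m' / 2 := hmm
    omega

end MPb51559.BG
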