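import Pool.Agent.Work.MP_b51559_nt.BG.E.Dens

set_option autoImplicit false

/-!
# Block BG, part E (density of the differences of consecutive primes), file 4: the constants
-/

namespace MPb51559.BG

open Finset Filter Topology MeasureTheory
open scoped Classical

/-- Euler's function of a product of distinct primes. -/
theorem E_totient (S : Finset ℕ) (hS : ∀ p ∈ S, p.Prime) :
    (∏ p ∈ S, p).totient = ∏ p ∈ S, (p - 1) := by
  induction S using Finset.induction_on with
  | empty => simp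
  | insert a s ha ih =>
    rw [Finset.prod_insert ha, Finset.prod_insert ha]
    have hap : a.Prime := hS a (Finset.mem_insert_self a s)
    have hs : ∀ p ∈ s, p.Prime := fun p hp => hS p (Finset.mem_insert_of_mem hp)
    have hco : a.Coprime (∏ p ∈ s, p) := by
      refine Nat.Coprime.prod_right fun p hp => ?_
      refine (Nat.coprime_primes hap (hs p hp)).2 ?_
      rintro rfl
      exact ha hp
    rw [Nat.totient_mul hco, Nat.totient_prime hap, ih hs]

theorem E_filter (k : ℕ) (h1 : 48 ≤ k) (h2 : k ≤ 49) :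
    (range (k + 1)).filter Nat.Prime = {2, 3, 5, 7, 11, 13, 17, 19, 23, 29, 31, 37, 41, 43, 47} := by
  have hk : k = 48 ∨ k = 49 := by omega
  rcases hk with rfl | rfl <;> decide

theorem E_prim (k : ℕ) (h1 : 48 ≤ k) (h2 : k ≤ 49) : primorial k = 614889782588491410 := by
  rw [primorial, E_filter k h1 h2]
  decide

theorem E_tot (k : ℕ) (h1 : 48 ≤ k) (h2 : k ≤ 49) :
    (primorial k).totient = 85287729364992000 := by
  rw [primorial, E_filter k h1 h2, E_totient]
  · decide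
  · intro p hp
    simp only [Finset.mem_insert, Finset.mem_singleton] at hp
    rcases hp with rfl | rfl | rfl | rfl | rfl | rfl | rfl | rfl | rfl | rfl | rfl | rfl | rfl |
      rfl | rfl <;> norm_num

/-- Lower density from a bound for every `N`. -/
theorem E_real (W φ k N c : ℕ) (hW : 0 < W) (hk : 2 ≤ k)
    (h : N / W * φ ≤ (k - 1) * (1 + c)) :
    (N : ℝ) * (φ / (W * (k - 1))) - (φ / (k - 1) + 1) ≤ c := by
  have hk1 : (0 : ℝ) < (k : ℝ) - 1 := by
    have : (2 : ℝ) ≤ k := by exact_mod_cast hk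
    linarith
  have hW' : (0 : ℝ) < W := by exact_mod_cast hW
  have h1 : ((N / W : ℕ) : ℝ) * φ ≤ ((k : ℝ) - 1) * (1 + c) := by
    have h2 : ((N / W * φ : ℕ) : ℝ) ≤ (((k - 1) * (1 + c) : ℕ) : ℝ) := by exact_mod_cast h
    rw [Nat.cast_mul, Nat.cast_mul, Nat.cast_sub (by omega), Nat.cast_add, Nat.cast_one] at h2
    exact h2
  have h3 : (N : ℝ) / W - 1 ≤ ((N / W : ℕ) : ℝ) := by
    have h4 : N < (N / W + 1) * W := by
      have := Nat.lt_div_mul_add (a := N) hW
      calc N < N / W * W + W := this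
        _ = (N / W + 1) * W := by ring
    have h5 : (N : ℝ) < (((N / W : ℕ) : ℝ) + 1) * W := by exact_mod_cast h4
    have h6 : (N : ℝ) / W < ((N / W : ℕ) : ℝ) + 1 := (div_lt_iff₀ hW').2 h5
    linarith
  have hφ : (0 : ℝ) ≤ φ := Nat.cast_nonneg _
  have h7 : ((N : ℝ) / W - 1) * φ ≤ ((k : ℝ) - 1) * (1 + c) :=
    (mul_le_mul_of_nonneg_right h3 hφ).trans h1
  have h8 : ((N : ℝ) / W - 1) * φ / ((k : ℝ) - 1) ≤ 1 + c := by
    rw [div_le_iff₀ hk1]
    linarith
  have h9 : ((N : ℝ) / W - 1) * φ / ((k : ℝ) - 1) =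
      (N : ℝ) * (φ / (W * (k - 1))) - φ / (k - 1) := by
    field_simp
  linarith

theorem E_density49 (hT : ∀ h : Fin 49 → ℕ, Adm h → TwoV h) :
    ∃ N0 : ℕ, ∀ s q a : ℕ, 0 < s → Squarefree q → q ∣ s → a.Coprime q → ∀ N ≥ N0,
      ∃ x0 : ℝ, ∀ x ≥ x0,
        (N : ℝ) / 347 ≤ ((Icc 1 N).filter fun m => Dif q a x (s * m)).card := by
  refine ⟨10 ^ 22, fun s q a hs hq hqs hqa N hN => ?_⟩
  obtain ⟨x0, hx0⟩ := E_bound 49 hT s q a hs hq hqs hqa N
  refine ⟨x0, fun x hx => ?_⟩
  have h1 := hx0 x hx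
  rw [E_tot 49 (by norm_num) le_rfl, E_prim 49 (by norm_num) le_rfl] at h1
  have h2 := E_real 614889782588491410 85287729364992000 49 N _ (by norm_num) (by norm_num) h1
  refine le_trans ?_ h2
  have h3 : (10 : ℝ) ^ 22 ≤ N := by exact_mod_cast hN
  push_cast
  norm_num
  linarith

theorem E_density48 (hT : ∀ h : Fin 48 → ℕ, Adm h → TwoV h) :
    ∃ N0 : ℕ, ∀ s q a : ℕ, 0 < s → Squarefree q → q ∣ s → a.Coprime q → ∀ N ≥ N0,
      ∃ x0 : ℝ, ∀ x ≥ x0,
        (N : ℝ) / 339 ≤ ((Icc 1 N).filter fun m => Dif q a x (s * m)).card := by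
  refine ⟨10 ^ 22, fun s q a hs hq hqs hqa N hN => ?_⟩
  obtain ⟨x0, hx0⟩ := E_bound 48 hT s q a hs hq hqs hqa N
  refine ⟨x0, fun x hx => ?_⟩
  have h1 := hx0 x hx
  rw [E_tot 48 le_rfl (by norm_num), E_prim 48 le_rfl (by norm_num)] at h1
  have h2 := E_real 614889782588491410 85287729364992000 48 N _ (by norm_num) (by norm_num) h1
  refine le_trans ?_ h2
  have h3 : (10 : ℝ) ^ 22 ≤ N := by exact_mod_cast hN
  push_cast
  norm_num
  linarith

end MPb51559.BG
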