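import Pool.Agent.Work.MP_b51559_nt.BG.E.Top
import Pool.Agent.Work.MP_b51559_nt.DN.Stmts

set_option autoImplicit false

/-!
# Block BG, part E: the density of the differences of consecutive primes, uniform form
-/

namespace MPb51559.BG

open Finset Filter Topology MeasureTheory
open scoped Classical

/-- From the combinatorial theorem (block DN, helper60) and the sieve. -/
theorem E_uni (hU : DN.D_UNI) :
    ∃ C r : ℕ, ∀ s q a : ℕ, 0 < s → Squarefree q → q ∣ s → a.Coprime q →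
      ∀ H : ℕ, ∃ x₀ : ℝ, ∀ x : ℝ, x₀ ≤ x → ∃ T : Finset ℕ, T.card ≤ r ∧
        ∀ N : ℕ, C < N → N ≤ H → (∀ t ∈ T, ¬ (t ≤ N ∧ N ≤ C * t)) →
          10 * N ≤ 2109 * Set.ncard {m : ℕ | 1 ≤ m ∧ m ≤ N ∧
            (∃ p p' : ℕ, p.Prime ∧ p'.Prime ∧ x < p ∧ (p' : ℝ) < 2 * x ∧ p < p' ∧
              (∀ l : ℕ, p < l → l < p' → ¬ l.Prime) ∧ p ≡ a [MOD q] ∧ p' - p = s * m) ∧
            (∀ y : ℝ, ∃ p p' : ℕ, p.Prime ∧ p'.Prime ∧ y < p ∧ p < p' ∧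
              (∀ l : ℕ, p < l → l < p' → ¬ l.Prime) ∧ p ≡ a [MOD q] ∧ p' - p = s * m)} := by
  obtain ⟨C, r, hU⟩ := hU
  refine ⟨C, r, fun s q a hs hq hqs hqa H => ?_⟩
  obtain ⟨x0, hx0⟩ := E_all_DefD s q a hs hq hqs hqa H
  refine ⟨x0, fun x hx => ?_⟩
  obtain ⟨P, hP⟩ : ∃ P : Set ℕ, ∀ m, m ∈ P ↔ Dif q a x (s * m) ∧ DifI q a (s * m) :=
    ⟨{m | Dif q a x (s * m) ∧ DifI q a (s * m)}, fun _ => Iff.rfl⟩
  have hD : DN.DefD P H := by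
    intro K hK hcard
    obtain ⟨u, hu, v, hv, huv, h1, h2⟩ := hx0 x hx K hcard (fun b hb => by
      obtain ⟨h3, h4⟩ := Finset.mem_filter.1 (hK hb)
      obtain ⟨h5, h6⟩ := Finset.mem_Icc.1 h3
      refine ⟨h5, h6, ?_⟩
      rw [← DN.QQ_eq]
      exact h4)
    exact ⟨u, hu, v, hv, huv, (hP _).2 ⟨h1, h2⟩⟩
  obtain ⟨T, hT, hN⟩ := hU H P hD
  refine ⟨T, hT, fun N hCN hNH hne => ?_⟩
  have h1 : 10 * N ≤ 2109 * (DN.PP P N).card := by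
    rcases hN N hNH with h2 | h2 | ⟨t, ht, h3, h4⟩
    · exact h2
    · omega
    · exact absurd ⟨h3, h4⟩ (hne t ht)
  refine h1.trans (Nat.mul_le_mul_left _ ?_)
  rw [← Set.ncard_coe_finset]
  have hfin : (Set.Icc 1 N).Finite := Set.finite_Icc 1 N
  refine Set.ncard_le_ncard ?_ (hfin.subset fun d hd => ⟨hd.1, hd.2.1⟩)
  intro m hm
  have hm' : m ∈ DN.PP P N := Finset.mem_coe.1 hm
  rw [DN.PP, Finset.mem_filter] at hm'
  obtain ⟨h2, h3⟩ := hm'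
  obtain ⟨h4, h5⟩ := Finset.mem_Icc.1 h2
  obtain ⟨⟨p, p', a1, a2, a3, a4, a5, a6, a7, a8⟩, hI⟩ := (hP m).1 h3
  refine ⟨h4, h5, ⟨p, p', a1, a2, a3, a5, a4, a6, a7, by omega⟩, fun y => ?_⟩
  obtain ⟨p, p', b1, b2, b3, b4, b5, b6, b7⟩ := hI y
  exact ⟨p, p', b1, b2, b3, b4, b5, b6, by omega⟩

end MPb51559.BG
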