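import Pool.Agent.Work.MP_b51559_nt.BG.Fin
import Pool.Agent.Work.MP_b51559_nt.BG.Q.I_Q1
import Pool.Agent.Work.MP_b51559_nt.BG.Q.I_Q2
import Pool.Agent.Work.MP_b51559_nt.BG.Q.I_Q3
import Pool.Agent.Work.MP_b51559_nt.BG.Q.I_Q4
import Pool.Agent.Work.MP_b51559_nt.BG.Q.I_Q5
import Pool.Agent.Work.MP_b51559_nt.BG.Q.I_Q6
import Pool.Agent.Work.MP_b51559_nt.BG.Q.I_Q7
import Pool.Agent.Work.MP_b51559_nt.BG.Q.I_Q8
import Pool.Agent.Work.MP_b51559_nt.BG.Q.I_Q9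
import Pool.Agent.Work.MP_b51559_nt.BG.Q.I_Q10
import Pool.Agent.Work.MP_b51559_nt.BG.Q.I_Q11
import Pool.Agent.Work.MP_b51559_nt.BG.Q.I_Q12
import Pool.Agent.Work.MP_b51559_nt.BG.Q.I_Q13
import Pool.Agent.Work.MP_b51559_nt.BG.Q.I_Q14
import Pool.Agent.Work.MP_b51559_nt.BG.Q.I_Q15
import Pool.Agent.Work.MP_b51559_nt.BG.Q.I_Q16
import Pool.Agent.Work.MP_b51559_nt.BG.Q.I_Q17
import Pool.Agent.Work.MP_b51559_nt.BG.Q.I_Q18
import Pool.Agent.Work.MP_b51559_nt.BG.Q.I_Q19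
import Pool.Agent.Work.MP_b51559_nt.BG.Q.FUN
import Pool.Agent.Work.MP_b51559_nt.BG.E.Grt
import Pool.Agent.Work.MP_b51559_nt.DP.WB
import Pool.Agent.Work.MP_b51559_nt.DP.KER
import Pool.Agent.Work.MP_b51559_nt.DP.E47
import Pool.Agent.Work.MP_b51559_nt.DP.RCK
import Pool.Agent.Work.MP_b51559_nt.DP.REC
import Pool.Agent.Work.MP_b51559_nt.DP.TAIL
import Pool.Agent.Work.MP_b51559_nt.DP.MU
import Pool.Agent.Work.MP_b51559_nt.DP.TRZ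
import Pool.Agent.Work.MP_b51559_nt.DP.MEAN
import Pool.Agent.Work.MP_b51559_nt.DP.DEN
import Pool.Agent.Work.MP_b51559_nt.DP.C2
import Pool.Agent.Work.MP_b51559_nt.DP.CB
import Pool.Agent.Work.MP_b51559_nt.DP.PAIR
import Pool.Agent.Work.MP_b51559_nt.DP.PRO
import Pool.Agent.Work.MP_b51559_nt.DP.TU5
import Pool.Agent.Work.MP_b51559_nt.DP.SUPR
import Pool.Agent.Work.MP_b51559_nt.DP.KS1
import Pool.Agent.Work.MP_b51559_nt.DP.KST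
import Pool.Agent.Work.MP_b51559_nt.DP.SEP
import Pool.Agent.Work.MP_b51559_nt.DP.KEY
import Pool.Agent.Work.MP_b51559_nt.DP.UNI

set_option autoImplicit false

/-!
# Block BG, part E: assembly of the second moment theorem, no hypotheses
-/

namespace MPb51559.BG

open Q in
theorem e_SEC : Q.SEC := by
  have q1 : Q1 := prq_Q1 prf_INV prf_SUP
  have q3 : Q3 := prq_Q3
  have q4 : Q4 := prq_Q4 prf_BAS prf_SUP
  have q5 : Q5 := prq_Q5 prf_BAS all_PERT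
  have q6 : Q6 := prq_Q6 prf_BAS (prf_MSU prf_BAS) all_TOT all_ONE prf_D1 prf_MG all_YM q3 q5
  have q7 : Q7 := prq_Q7 prf_BVM prf_MG
  have q8 : Q8 := prq_Q8 prf_BVM q7
  have q9 : Q9 := prq_Q9 q7
  have q10 : Q10 := prq_Q10 all_ONE prq_Q2
  have q11 : Q11 := prq_Q11 prf_BAS all_QN all_APX q4 q6 q7 q8 q9 q10
  have q12 : Q12 := prq_Q12 (all_S2B all_BVE)
  have q13 : Q13 := prq_Q13 q1 q4 q6 q9 q11 q12
  have q15 : Q15 := prq_Q15 prf_INV q1 q13 prq_Q14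
  exact prq_Q19 q9 q15 prq_Q16 prq_Q17 prq_Q18

open DP in
theorem e_DPUNI : DP.D_UNI := by
  have wb : D_WB := prf_WB
  have mean : D_MEAN := prf_MEAN wb (prf_E47 prf_REC prf_RCK prf_KER) prf_TAIL prf_MU prf_TRZ
  have den : D_DEN := prf_DEN mean
  have pro : D_PRO := prf_PRO (prf_PAIR prf_C2) prf_CB wb
  have sep : D_SEP := prf_SEP pro (prf_SUPR prf_TU5) (prf_KST prf_KS1)
  exact prf_UNI (prf_KEY sep den)

/-- One seventh of the multiples of every even number. -/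
theorem e_seventh :
    ∃ C r : ℕ, ∀ h q a : ℕ, 0 < h → Even h → Squarefree q → q ∣ h → a.Coprime q →
      ∀ H : ℕ, ∃ x₀ : ℝ, ∀ x : ℝ, x₀ ≤ x → ∃ T : Finset ℕ, T.card ≤ r ∧
        ∀ N : ℕ, C < N → N ≤ H → (∀ t ∈ T, ¬ (t ≤ N ∧ N ≤ C * t)) →
          100 * N ≤ 698 * Set.ncard {j : ℕ | 1 ≤ j ∧ j ≤ N ∧
            (∃ p p' : ℕ, p.Prime ∧ p'.Prime ∧ x < p ∧ (p' : ℝ) < 2 * x ∧ p < p' ∧
              (∀ l : ℕ, p < l → l < p' → ¬ l.Prime) ∧ p ≡ a [MOD q] ∧ p' - p = j * h) ∧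
            (∀ y : ℝ, ∃ p p' : ℕ, p.Prime ∧ p'.Prime ∧ y < p ∧ p < p' ∧
              (∀ l : ℕ, p < l → l < p' → ¬ l.Prime) ∧ p ≡ a [MOD q] ∧ p' - p = j * h)} :=
  E_uni7 all_BVE A.bg_PNTW e_SEC Q.prf_FUN e_DPUNI

end MPb51559.BG
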