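import Pool.Agent.Work.MP_b51559_nt.BG.C.Stmts2
import Pool.Agent.Work.MP_b51559_nt.BG.C.MAIN

set_option autoImplicit false

/-!
# Block BG, part E (density of the differences of consecutive primes), file 1

The items POS and MAIN of part C (helper99's block) with the congruence `n ≡ v0` kept.
-/

namespace MPb51559.BG

open Finset Filter Topology MeasureTheory
open scoped Classical

/-- POS with the congruence -/
def E_POS : Prop := ∀ w, Wt w → ∀ (k : ℕ) (h : Fin k → ℕ), 0 < k →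
  ∃ x0 : ℝ, ∀ x ≥ x0, ∀ (D0 v0 : ℕ) (S : Finset ℕ) (l : Co S k → ℝ),
  Real.log (2 * x) * S1 w h D0 v0 x l l < ∑ m, S2 w h D0 v0 x m l l →
  ∃ n : ℕ, n ≡ v0 [MOD primorial D0] ∧ x < n ∧ (∀ i, (n + h i : ℝ) < 2 * x) ∧
    ∃ i j : Fin k, i ≠ j ∧ (n + h i).Prime ∧ (n + h j).Prime

theorem E_prf_POS : E_POS := by
  intro w hw k h hk
  refine ⟨8 * (∑ i, (h i : ℝ)) + 8, fun x hx D0 v0 S l hS => ?_⟩
  have hH0 : ∀ i, (0 : ℝ) ≤ h i := fun i => Nat.cast_nonneg _
  have hHs : ∀ i, (h i : ℝ) ≤ ∑ j, (h j : ℝ) := fun i =>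
    Finset.single_le_sum (f := fun j => (h j : ℝ)) (fun j _ => hH0 j) (mem_univ i)
  have hsum0 : 0 ≤ ∑ j, (h j : ℝ) := sum_nonneg fun j _ => hH0 j
  have hx1 : 1 ≤ x := by linarith
  have hx0 : 0 < x := by linarith
  have hlog : 0 ≤ Real.log (2 * x) := Real.log_nonneg (by linarith)
  have hS2 : ∑ m, S2 w h D0 v0 x m l l =
      ∑ n ∈ (range (⌊2 * x⌋₊ + 1)).filter (fun n => n ≡ v0 [MOD primorial D0]),
        (∑ m, tm w h x m n) * (Vn h l n * Vn h l n) := by
    simp only [S2, sum_mul]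
    rw [sum_comm]
  rw [hS2, S1, mul_sum] at hS
  obtain ⟨n, hnmem, hn⟩ := exists_lt_of_sum_lt hS
  have hV : 0 ≤ Vn h l n * Vn h l n := mul_self_nonneg _
  have hlt : Real.log (2 * x) * wp w h x n < ∑ m, tm w h x m n := by
    by_contra hc
    have h1 := mul_le_mul_of_nonneg_right (not_lt.1 hc) hV
    rw [mul_assoc] at h1
    exact absurd hn (not_lt.2 h1)
  have hbdd : BddAbove (Set.range fun m : Fin k => w (((n : ℝ) + h m) / x)) :=
    Set.Finite.bddAbove (Set.finite_range _)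
  have hwp : ∀ m : Fin k, w (((n : ℝ) + h m) / x) ≤ wp w h x n := fun m => le_ciSup hbdd m
  have hwp0 : 0 ≤ wp w h x n := (hw.nonneg _).trans (hwp ⟨0, hk⟩)
  -- what a nonzero term says
  have hterm : ∀ m : Fin k, tm w h x m n ≠ 0 → (n + h m).Prime ∧
      9 / 8 * x < (n : ℝ) + h m ∧ (n : ℝ) + h m < 15 / 8 * x := by
    intro m hm
    unfold tm at hm
    split_ifs at hm with hp
    · have h1 := hw.supp _ (right_ne_zero_of_mul hm)
      exact ⟨hp, (lt_div_iff₀ hx0).1 h1.1, (div_lt_iff₀ hx0).1 h1.2⟩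
    · exact absurd rfl hm
  have hle : ∀ m : Fin k, tm w h x m n ≤ Real.log (2 * x) * wp w h x n := by
    intro m
    by_cases hm : tm w h x m n = 0
    · rw [hm]
      exact mul_nonneg hlog hwp0
    · obtain ⟨hp, h1, h2⟩ := hterm m hm
      unfold tm
      rw [if_pos hp]
      refine mul_le_mul ?_ (hwp m) (hw.nonneg _) hlog
      exact Real.log_le_log (by linarith) (by linarith)
  -- two nonzero terms
  obtain ⟨i, j, hij, hi, hj⟩ : ∃ i j : Fin k, i ≠ j ∧ tm w h x i n ≠ 0 ∧ tm w h x j n ≠ 0 := by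
    by_contra hno
    have hno' : ∀ i j : Fin k, i ≠ j → tm w h x i n ≠ 0 → tm w h x j n = 0 := by
      intro i j hij hi
      by_contra hj
      exact hno ⟨i, j, hij, hi, hj⟩
    apply absurd hlt
    rw [not_lt]
    by_cases hall : ∀ m, tm w h x m n = 0
    · rw [sum_eq_zero fun m _ => hall m]
      exact mul_nonneg hlog hwp0
    · obtain ⟨i, hi⟩ := not_forall.1 hall
      rw [sum_eq_single i (fun j _ hj => hno' i j hj.symm hi) (fun hi' => absurd (mem_univ i) hi')]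
      exact hle i
  obtain ⟨hpi, hi1, hi2⟩ := hterm i hi
  obtain ⟨hpj, hj1, hj2⟩ := hterm j hj
  refine ⟨n, (Finset.mem_filter.1 hnmem).2, ?_, fun m => ?_, i, j, hij, hpi, hpj⟩
  · have := hHs i
    linarith
  · have h1 := hHs m
    have h2 := hH0 i
    linarith

/-- two primes in every class `v0` which is allowed -/
def TwoV {k : ℕ} (h : Fin k → ℕ) : Prop := ∃ D1 : ℕ, ∀ D0 ≥ D1, ∃ x0 : ℝ, ∀ x ≥ x0, ∀ v0 : ℕ,
  (∀ i, (v0 + h i).Coprime (primorial D0)) →
  ∃ n : ℕ, n ≡ v0 [MOD primorial D0] ∧ x < n ∧ (∀ i, (n + h i : ℝ) < 2 * x) ∧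
    ∃ i j : Fin k, i ≠ j ∧ (n + h i).Prime ∧ (n + h j).Prime

theorem E_prf_MAIN (w : ℝ → ℝ) (hw : Wt w) (k : ℕ) (h : Fin k → ℕ) (hk : 0 < k)
    (P : Sl) (F : (Fin k → ℝ) → ℝ) (hC : Crit P F) (h1 : S1Concl w h F)
    (h2 : S2Concl w h P F) : TwoV h := by
  obtain ⟨xP, hxP⟩ := E_prf_POS w hw k h hk
  have hI : 0 ≤ ∫ t, F t ^ 2 := integral_nonneg fun t => sq_nonneg (F t)
  set I : ℝ := ∫ t, F t ^ 2 with hIdef
  set J : ℝ := ∑ m, Jm P F m with hJdef
  have hC' : 4 * I < J := hC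
  have hkR : (0 : ℝ) < k := by exact_mod_cast hk
  set g : ℝ := J - 4 * I with hg
  have hg0 : 0 < g := by linarith
  obtain ⟨δ1, hδ1, hδ1', h3⟩ := h2 (g / (4 * k)) (by positivity)
  set A : ℝ := 4 * (I + g / 32) with hAdef
  set Bv : ℝ := J - g / 4 with hB
  have hA0 : 0 < A := by positivity
  have hAB : A < Bv := by
    rw [hAdef, hB]
    linarith
  set δ : ℝ := min δ1 ((Bv - A) / (8 * (A + Bv))) with hδ
  have hAB0 : 0 < A + Bv := by linarith
  have hδ0 : 0 < δ := by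
    refine lt_min hδ1 (div_pos (by linarith) (by linarith))
  have hδle : δ ≤ δ1 := min_le_left _ _
  have hδ8 : δ < 1 / 8 := lt_of_le_of_lt hδle hδ1'
  have hδ4 : 0 < 1 - 4 * δ := by linarith
  obtain ⟨D1, hD1⟩ := h1 δ hδ0 hδ8 (g / 32) (by positivity)
  obtain ⟨D2, hD2⟩ := h3 δ hδ0 hδle
  refine ⟨max D1 D2, fun D0 hD0 => ?_⟩
  obtain ⟨x1, hx1⟩ := hD1 D0 ((le_max_left _ _).trans hD0)
  obtain ⟨x2, hx2⟩ := hD2 D0 ((le_max_right _ _).trans hD0)
  -- the constant
  have hCA : A / (1 - 4 * δ) < Bv := by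
    rw [div_lt_iff₀ hδ4]
    have e1 : δ ≤ (Bv - A) / (8 * (A + Bv)) := min_le_right _ _
    rw [le_div_iff₀ (by linarith)] at e1
    have e2 : 8 * δ * (A + Bv) ≤ Bv - A := by linarith
    have e3 : 4 * δ * Bv ≤ 4 * δ * (A + Bv) := by
      apply mul_le_mul_of_nonneg_left (by linarith) (by linarith)
    nlinarith
  set Cc : ℝ := A / (1 - 4 * δ) with hCc
  have hCc0 : 0 < Cc := div_pos hA0 hδ4
  have hlog : ∀ᶠ x : ℝ in atTop, Real.log 2 * Cc / (Bv - Cc) < Real.log x :=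
    Real.tendsto_log_atTop.eventually_gt_atTop _
  obtain ⟨x3, hx3⟩ := eventually_atTop.1 hlog
  refine ⟨max (max xP x1) (max (max x2 x3) 2), fun x hx v0 hv0 => ?_⟩
  have g1 : xP ≤ x := le_trans (le_trans (le_max_left _ _) (le_max_left _ _)) hx
  have g2 : x1 ≤ x := le_trans (le_trans (le_max_right _ _) (le_max_left _ _)) hx
  have g3 : x2 ≤ x := le_trans (le_trans (le_trans (le_max_left _ _) (le_max_left _ _))
    (le_max_right _ _)) hx
  have g4 : x3 ≤ x := le_trans (le_trans (le_trans (le_max_right _ _) (le_max_left _ _))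
    (le_max_right _ _)) hx
  have g5 : 2 ≤ x := le_trans (le_trans (le_max_right _ _) (le_max_right _ _)) hx
  have hx0 : 0 < x := by linarith
  have hlx : 0 < Real.log x := Real.log_pos (by linarith)
  have hlR : Real.log (Rx δ x) = (1 - 4 * δ) / 4 * Real.log x := by
    rw [Rx, Real.log_rpow hx0]
    ring
  have hlR0 : 0 < Real.log (Rx δ x) := by
    rw [hlR]
    positivity
  have hN := MAIN_Nn hw k D0 (δ := δ) hx0 hlR0
  obtain ⟨l, hl⟩ : ∃ l : Co (Sx D0 x) k → ℝ, l = lam aP (yF (Rx δ x) F) := ⟨_, rfl⟩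
  have k1 := hx1 x g2 v0 hv0 l hl
  have k2 := fun m => hx2 x g3 v0 hv0 m l hl
  set S : ℝ := S1 w h D0 v0 x l l with hS
  set N : ℝ := Nn w k D0 δ x with hNdef
  refine hxP x g1 D0 v0 (Sx D0 x) l ?_
  have h5 : N * Bv ≤ ∑ m, S2 w h D0 v0 x m l l := by
    have e1 : N * Bv = ∑ m, N * (Jm P F m - g / (4 * k)) := by
      rw [← Finset.mul_sum, Finset.sum_sub_distrib, Finset.sum_const, Finset.card_univ,
        Fintype.card_fin, nsmul_eq_mul, hB]
      congr 2
      field_simp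
    rw [e1]
    exact Finset.sum_le_sum fun m _ => k2 m
  refine lt_of_lt_of_le ?_ h5
  rw [← hS]
  have e0 : Real.log (2 * x) = Real.log 2 + Real.log x :=
    Real.log_mul (by norm_num) hx0.ne'
  have hl2 : 0 < Real.log 2 := Real.log_pos (by norm_num)
  have hl2x : 0 < Real.log (2 * x) := by rw [e0]; linarith
  -- log(2x) S log R ≤ log(2x) N (I + g/32)
  have h6 : Real.log (2 * x) * (S * Real.log (Rx δ x)) ≤
      Real.log (2 * x) * (N * (I + g / 32)) := mul_le_mul_of_nonneg_left k1 hl2x.le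
  have h7 : Real.log (2 * x) * (N * (I + g / 32)) < N * Bv * Real.log (Rx δ x) := by
    rw [hlR]
    have e1 : Real.log (2 * x) * (N * (I + g / 32)) =
        N * (Real.log (2 * x) * (A / 4)) := by
      rw [hAdef]
      ring
    have e2 : N * Bv * ((1 - 4 * δ) / 4 * Real.log x) =
        N * (Bv * (1 - 4 * δ) / 4 * Real.log x) := by ring
    rw [e1, e2]
    refine mul_lt_mul_of_pos_left ?_ hN
    have e3 : A = Cc * (1 - 4 * δ) := by
      rw [hCc, div_mul_cancel₀ _ hδ4.ne']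
    have e4 : (Real.log 2 + Real.log x) * Cc < Bv * Real.log x := by
      have e5 := hx3 x g4
      rw [div_lt_iff₀ (by linarith)] at e5
      nlinarith
    rw [e0, e3]
    have e6 : (Real.log 2 + Real.log x) * (Cc * (1 - 4 * δ) / 4) =
        ((Real.log 2 + Real.log x) * Cc) * ((1 - 4 * δ) / 4) := by ring
    have e7 : Bv * (1 - 4 * δ) / 4 * Real.log x = (Bv * Real.log x) * ((1 - 4 * δ) / 4) := by ring
    rw [e6, e7]
    exact mul_lt_mul_of_pos_right e4 (by positivity)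
  have h8 : Real.log (2 * x) * S * Real.log (Rx δ x) < N * Bv * Real.log (Rx δ x) := by
    have e1 : Real.log (2 * x) * S * Real.log (Rx δ x) =
        Real.log (2 * x) * (S * Real.log (Rx δ x)) := by ring
    rw [e1]
    exact lt_of_le_of_lt h6 h7
  exact lt_of_mul_lt_mul_right h8 hlR0.le

end MPb51559.BG
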