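import Pool.Agent.Work.MP_b51559_nt.BG.Fin2
import Pool.Agent.Work.MP_b51559_nt.BG.E.All
import Pool.Agent.Work.MP_b51559_nt.BG.E.Dd
import Pool.Agent.Work.MP_b51559_nt.BG.E.Num

set_option autoImplicit false

/-!
# Block BG, part E (density of the differences of consecutive primes): theorems without hypotheses
-/

namespace MPb51559.BG

open Finset Filter Topology MeasureTheory
open scoped Classical

theorem E_all_TwoV (h : Fin 49 → ℕ) (hAdm : Adm h) : TwoV h :=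
  E_TwoV 49 (by norm_num) all_NUM h hAdm

/-- Two members of an admissible `49`-tuple are consecutive primes in every `(x, 2 x)`. -/
theorem E_all_tuple (h : Fin 49 → ℕ) (hAdm : Adm h) (q a : ℕ)
    (hq : Squarefree q) (hqa : a.Coprime q) (hqh : ∀ i, q ∣ h i) :
    ∃ x0 : ℝ, ∀ x ≥ x0, ∃ i j : Fin 49, h i < h j ∧ Dif q a x (h j - h i) :=
  E_tuple 49 (by norm_num) all_NUM h hAdm q a hq hqa hqh

/-- The interface with part F. -/
theorem E_all_DefD (s q a : ℕ) (hs : 0 < s) (hq : Squarefree q) (hqs : q ∣ s)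
    (hqa : a.Coprime q) (H : ℕ) :
    ∃ x0 : ℝ, ∀ x ≥ x0, ∀ K : Finset ℕ, K.card = 49 →
      (∀ b ∈ K, 1 ≤ b ∧ b ≤ H ∧ b.Coprime (primorial 49)) →
      ∃ u ∈ K, ∃ v ∈ K, u < v ∧ Dif q a x (s * (v - u)) ∧ DifI q a (s * (v - u)) :=
  E_DefD 49 E_all_TwoV s q a hs hq hqs hqa H

theorem E_all_density :
    ∃ N0 : ℕ, ∀ s q a : ℕ, 0 < s → Squarefree q → q ∣ s → a.Coprime q → ∀ N ≥ N0,
      ∃ x0 : ℝ, ∀ x ≥ x0,
        (N : ℝ) / 347 ≤ ((Icc 1 N).filter fun m => Dif q a x (s * m)).card :=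
  E_density49 E_all_TwoV

end MPb51559.BG
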